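import Mathlib

/-!
# Cauchy's inequality for absolutely convergent Fourier series
-/

set_option autoImplicit false

open Finset MeasureTheory

namespace Pool.Agent.H2.Ratios

lemma integral_exp_int (j : ℤ) : ∫ θ in (0 : ℝ)..(2 * Real.pi),
    Complex.exp ((j : ℂ) * θ * Complex.I) = if j = 0 then ((2 * Real.pi : ℝ) : ℂ) else 0 := by
  split_ifs with h
  · subst h
    simp
  · have hc : (j : ℂ) * Complex.I ≠ 0 :=
      mul_ne_zero (by exact_mod_cast h) Complex.I_ne_zero
    have h1 : ∀ θ : ℝ, Complex.exp ((j : ℂ) * θ * Complex.I) =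
        Complex.exp (((j : ℂ) * Complex.I) * θ) := by
      intro θ
      congr 1
      ring
    simp only [h1]
    rw [integral_exp_mul_complex hc]
    have h2 : Complex.exp ((j : ℂ) * Complex.I * ((2 * Real.pi : ℝ) : ℂ)) = 1 := by
      rw [Complex.exp_eq_one_iff]
      refine ⟨j, ?_⟩
      push_cast
      ring
    rw [h2]
    simp

/-- **Cauchy's inequality**. -/
theorem cauchy (a : ℕ → ℂ) (ρ S : ℝ) (hρ : 0 < ρ) (ha : Summable (fun m => ‖a m‖ * ρ ^ m))
    (f : ℂ → ℂ) (hf : ∀ u : ℂ, ‖u‖ = ρ → HasSum (fun m => a m * u ^ m) (f u))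
    (hS : ∀ u : ℂ, ‖u‖ = ρ → ‖f u‖ ≤ S) (k : ℕ) : ‖a k‖ * ρ ^ k ≤ S := by
  have hpi : (0 : ℝ) < 2 * Real.pi := by positivity
  have hu : ∀ θ : ℝ, ‖(ρ : ℂ) * Complex.exp (θ * Complex.I)‖ = ρ := by
    intro θ
    rw [norm_mul, Complex.norm_real, Complex.norm_exp_ofReal_mul_I, mul_one, Real.norm_eq_abs,
      abs_of_pos hρ]
  have hterm : ∀ (m : ℕ) (θ : ℝ), a m * ((ρ : ℂ) * Complex.exp (θ * Complex.I)) ^ m *
      Complex.exp (-(k : ℂ) * θ * Complex.I) =
        (a m * ρ ^ m) * Complex.exp ((((m : ℤ) - (k : ℤ) : ℤ) : ℂ) * θ * Complex.I) := by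
    intro m θ
    have h1 : Complex.exp ((m : ℂ) * (θ * Complex.I)) * Complex.exp (-(k : ℂ) * θ * Complex.I) =
        Complex.exp ((((m : ℤ) - (k : ℤ) : ℤ) : ℂ) * θ * Complex.I) := by
      rw [← Complex.exp_add]
      congr 1
      push_cast
      ring
    rw [mul_pow, ← Complex.exp_nat_mul, ← h1]
    ring
  have hint := intervalIntegral.hasSum_integral_of_dominated_convergence (μ := volume)
    (a := 0) (b := 2 * Real.pi)
    (F := fun (m : ℕ) (θ : ℝ) => a m * ((ρ : ℂ) * Complex.exp (θ * Complex.I)) ^ m *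
      Complex.exp (-(k : ℂ) * θ * Complex.I))
    (f := fun θ : ℝ => f ((ρ : ℂ) * Complex.exp (θ * Complex.I)) *
      Complex.exp (-(k : ℂ) * θ * Complex.I))
    (fun m _ => ‖a m‖ * ρ ^ m) ?_ ?_ ?_ ?_ ?_
  · have hval : ∀ m : ℕ, ∫ θ in (0 : ℝ)..(2 * Real.pi),
        a m * ((ρ : ℂ) * Complex.exp (θ * Complex.I)) ^ m *
          Complex.exp (-(k : ℂ) * θ * Complex.I) =
        if m = k then (a k * ρ ^ k) * ((2 * Real.pi : ℝ) : ℂ) else 0 := by
      intro m
      simp only [hterm]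
      rw [intervalIntegral.integral_const_mul, integral_exp_int]
      by_cases h : m = k
      · subst h
        simp
      · have h' : ¬ ((m : ℤ) - (k : ℤ) = 0) := by omega
        rw [if_neg h', if_neg h, mul_zero]
    simp only [hval] at hint
    have h2 := hint.unique (hasSum_ite_eq k ((a k * ρ ^ k) * ((2 * Real.pi : ℝ) : ℂ)))
    have h3 : ‖∫ θ in (0 : ℝ)..(2 * Real.pi), f ((ρ : ℂ) * Complex.exp (θ * Complex.I)) *
        Complex.exp (-(k : ℂ) * θ * Complex.I)‖ ≤ S * |2 * Real.pi - 0| := by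
      apply intervalIntegral.norm_integral_le_of_norm_le_const
      intro θ _
      rw [norm_mul]
      have h4 : ‖Complex.exp (-(k : ℂ) * θ * Complex.I)‖ = 1 := by
        have : -(k : ℂ) * θ * Complex.I = ((-(k : ℝ) * θ : ℝ) : ℂ) * Complex.I := by
          push_cast; ring
        rw [this, Complex.norm_exp_ofReal_mul_I]
      rw [h4, mul_one]
      exact hS _ (hu θ)
    rw [h2, norm_mul, norm_mul, norm_pow, Complex.norm_real, Complex.norm_real,
      Real.norm_eq_abs, Real.norm_eq_abs, abs_of_pos hρ, abs_of_pos hpi, sub_zero,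
      abs_of_pos hpi] at h3
    exact le_of_mul_le_mul_right h3 hpi
  · intro m
    apply Continuous.aestronglyMeasurable
    fun_prop
  · intro m
    refine Filter.Eventually.of_forall fun θ _ => ?_
    rw [hterm, norm_mul, norm_mul, norm_pow, Complex.norm_real, Real.norm_eq_abs, abs_of_pos hρ]
    have : ((((m : ℤ) - (k : ℤ) : ℤ) : ℂ) * θ * Complex.I) =
        (((((m : ℤ) - (k : ℤ) : ℤ) : ℝ) * θ : ℝ) : ℂ) * Complex.I := by push_cast; ring
    rw [this, Complex.norm_exp_ofReal_mul_I, mul_one]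
  · exact Filter.Eventually.of_forall fun θ _ => ha
  · simp
  · refine Filter.Eventually.of_forall fun θ _ => ?_
    exact (hf _ (hu θ)).mul_right _

/-- Cauchy's inequality for polynomials -/
theorem cauchy_poly (p : Polynomial ℂ) (ρ S : ℝ) (hρ : 0 < ρ)
    (hS : ∀ u : ℂ, ‖u‖ = ρ → ‖p.eval u‖ ≤ S) (k : ℕ) : ‖p.coeff k‖ * ρ ^ k ≤ S := by
  refine cauchy (fun m => p.coeff m) ρ S hρ ?_ (fun u => p.eval u) ?_ hS k
  · apply summable_of_ne_finset_zero (s := range (p.natDegree + 1))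
    intro m hm
    rw [Finset.mem_range, not_lt] at hm
    rw [Polynomial.coeff_eq_zero_of_natDegree_lt (by omega), norm_zero, zero_mul]
  · intro u _
    rw [Polynomial.eval_eq_sum_range]
    apply hasSum_sum_of_ne_finset_zero
    intro m hm
    rw [Finset.mem_range, not_lt] at hm
    rw [Polynomial.coeff_eq_zero_of_natDegree_lt (by omega), zero_mul]

end Pool.Agent.H2.Ratios
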