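import Pool.Agent.H69.Ratios.Vanish

/-!
# Counting monic polynomials; the decomposition `D = D₀ E²`
-/

set_option autoImplicit false
set_option linter.unusedSectionVars false

open Polynomial UniqueFactorizationMonoid Finset
open scoped Classical

namespace Pool.Agent.H2.Ratios

open Pool.Agent.H69.Ratios

variable {F : Type} [Field F] [Fintype F]

/-- the monic polynomial of degree `n` with lower coefficients `a` -/
noncomputable def mp (n : ℕ) (a : Fin n → F) : F[X] := X ^ n + ∑ i : Fin n, C (a i) * X ^ (i : ℕ)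

lemma deg_low (n : ℕ) (a : Fin n → F) :
    (∑ i : Fin n, C (a i) * X ^ (i : ℕ) : F[X]).degree < n := by
  rw [← mem_degreeLT]
  refine Submodule.sum_mem _ fun i _ => ?_
  rw [mem_degreeLT]
  exact lt_of_le_of_lt (degree_C_mul_X_pow_le _ _) (by exact_mod_cast i.2)

lemma coeff_low (n : ℕ) (a : Fin n → F) (j : Fin n) :
    (∑ i : Fin n, C (a i) * X ^ (i : ℕ) : F[X]).coeff j = a j := by
  simp only [finsetSum_coeff, coeff_C_mul, coeff_X_pow]
  rw [Finset.sum_eq_single j]
  · simp
  · intro b _ hb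
    rw [if_neg, mul_zero]
    intro h
    exact hb (Fin.ext h.symm)
  · intro h
    exact absurd (mem_univ j) h

lemma coeff_mp (n : ℕ) (a : Fin n → F) (j : Fin n) : (mp n a).coeff j = a j := by
  rw [mp, coeff_add, coeff_low, coeff_X_pow, if_neg (by have := j.2; omega), zero_add]

lemma mp_mem (n : ℕ) (a : Fin n → F) : mp n a ∈ monics F n := by
  rw [mem_monics]
  constructor
  · exact monic_X_pow_add (deg_low n a)
  · rw [mp, natDegree_add_eq_left_of_degree_lt, natDegree_X_pow]
    rw [degree_X_pow]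
    exact deg_low n a

lemma mp_coeff (n : ℕ) (f : F[X]) (hf : f ∈ monics F n) : mp n (fun i => f.coeff i) = f := by
  rw [mem_monics] at hf
  obtain ⟨hm, hn⟩ := hf
  have h := hm.as_sum
  rw [hn] at h
  conv_rhs => rw [h]
  rw [mp]
  congr 1
  exact Fin.sum_univ_eq_sum_range (fun i => C (f.coeff i) * X ^ i) n

lemma mp_inj (n : ℕ) : Function.Injective (mp (F := F) n) := by
  intro a b h
  ext j
  rw [← coeff_mp n a j, h, coeff_mp]

/-- sums over the monic polynomials of degree `n` as sums over coefficient vectors -/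
lemma sum_monics {M : Type} [AddCommMonoid M] (n : ℕ) (f : F[X] → M) :
    ∑ D ∈ monics F n, f D = ∑ a : Fin n → F, f (mp n a) := by
  symm
  refine Finset.sum_bij (fun a _ => mp n a) (fun a _ => mp_mem n a)
    (fun a _ b _ h => mp_inj n h) (fun D hD => ⟨fun i => D.coeff i, mem_univ _, mp_coeff n D hD⟩)
    (fun a _ => rfl)

lemma card_monics (n : ℕ) : (monics F n).card = Fintype.card F ^ n := by
  have h := sum_monics (F := F) n (fun _ => 1)
  simpa using h

/-! ### Squarefree decomposition -/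

lemma exists_decomp (D : F[X]) (hD : D.Monic) :
    ∃ D₀ E : F[X], D₀.Monic ∧ E.Monic ∧ Squarefree D₀ ∧ D = D₀ * E ^ 2 := by
  induction h : D.natDegree using Nat.strong_induction_on generalizing D with
  | _ n ih =>
    by_cases hsq : Squarefree D
    · exact ⟨D, 1, hD, monic_one, hsq, by ring⟩
    · unfold Squarefree at hsq
      push Not at hsq
      obtain ⟨x, hx, hxu⟩ := hsq
      have hx0 : x ≠ 0 := by
        rintro rfl
        rw [mul_zero, zero_dvd_iff] at hx
        exact hD.ne_zero hx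
      obtain ⟨y, hy⟩ : ∃ y, y = normalize x := ⟨_, rfl⟩
      have hym : y.Monic := by rw [hy]; exact monic_normalize hx0
      have hyx : Associated y x := by rw [hy]; exact normalize_associated x
      have hyd : y * y ∣ D := (hyx.mul_mul hyx).dvd.trans hx
      obtain ⟨D', hD'⟩ := hyd
      have hyy : (y * y).Monic := hym.mul hym
      have hD'm : D'.Monic := by rw [hD'] at hD; exact hyy.of_mul_monic_left hD
      have hyu : ¬ IsUnit y := fun hu => hxu (hyx.isUnit hu)
      have hydeg : 0 < y.natDegree := by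
        rcases Nat.eq_zero_or_pos y.natDegree with h0 | h0
        · exact absurd (by rw [hym.natDegree_eq_zero.mp h0]; exact isUnit_one) hyu
        · exact h0
      have hdeg : D.natDegree = 2 * y.natDegree + D'.natDegree := by
        rw [hD', hyy.natDegree_mul hD'm, hym.natDegree_mul hym]; ring
      obtain ⟨D₀, E, h1, h2, h3, h4⟩ := ih D'.natDegree (by omega) D' hD'm rfl
      refine ⟨D₀, E * y, h1, h2.mul hym, h3, ?_⟩
      rw [hD', h4]; ring

lemma eq_of_nf {E E' : F[X]} (hE : E.Monic) (hE' : E'.Monic)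
    (h : normalizedFactors E = normalizedFactors E') : E = E' := by
  have h1 : (normalizedFactors E).prod = E := by
    rw [prod_normalizedFactors_eq hE.ne_zero, hE.normalize_eq_self]
  have h2 : (normalizedFactors E').prod = E' := by
    rw [prod_normalizedFactors_eq hE'.ne_zero, hE'.normalize_eq_self]
  rw [← h1, ← h2, h]

lemma nf_mul_sq (D₀ E : F[X]) (h1 : D₀.Monic) (h2 : E.Monic) :
    normalizedFactors (D₀ * E ^ 2) = normalizedFactors D₀ + 2 • normalizedFactors E := by
  rw [normalizedFactors_mul h1.ne_zero (pow_ne_zero _ h2.ne_zero), normalizedFactors_pow]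

lemma decomp_unique (D₀ E D₁ E₁ : F[X]) (h0 : D₀.Monic) (h1 : E.Monic) (h2 : D₁.Monic)
    (h3 : E₁.Monic) (hs0 : Squarefree D₀) (hs1 : Squarefree D₁)
    (h : D₀ * E ^ 2 = D₁ * E₁ ^ 2) : D₀ = D₁ ∧ E = E₁ := by
  have hn := congrArg normalizedFactors h
  rw [nf_mul_sq D₀ E h0 h1, nf_mul_sq D₁ E₁ h2 h3] at hn
  have key : ∀ P, (normalizedFactors D₀).count P = (normalizedFactors D₁).count P ∧
      (normalizedFactors E).count P = (normalizedFactors E₁).count P := by
    intro P
    have hc := congrArg (Multiset.count P) hn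
    rw [Multiset.count_add, Multiset.count_add, Multiset.count_nsmul, Multiset.count_nsmul] at hc
    have hn0 := (squarefree_iff_nodup_normalizedFactors h0.ne_zero).mp hs0
    have hn1 := (squarefree_iff_nodup_normalizedFactors h2.ne_zero).mp hs1
    have c0 : (normalizedFactors D₀).count P ≤ 1 := Multiset.nodup_iff_count_le_one.mp hn0 P
    have c1 : (normalizedFactors D₁).count P ≤ 1 := Multiset.nodup_iff_count_le_one.mp hn1 P
    omega
  exact ⟨eq_of_nf h0 h2 (Multiset.ext.mpr fun P => (key P).1),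
    eq_of_nf h1 h3 (Multiset.ext.mpr fun P => (key P).2)⟩

/-- sums over all monic polynomials, in terms of the squarefree part -/
lemma sum_decomp (n : ℕ) (f : F[X] → ℤ) :
    ∑ D ∈ monics F n, f D =
      ∑ e ∈ range (n / 2 + 1), ∑ E ∈ monics F e, ∑ D₀ ∈ ensemble F (n - 2 * e),
        f (D₀ * E ^ 2) := by
  have h1 : ∀ e ∈ range (n / 2 + 1), ∑ E ∈ monics F e, ∑ D₀ ∈ ensemble F (n - 2 * e),
      f (D₀ * E ^ 2) = ∑ x ∈ monics F e ×ˢ ensemble F (n - 2 * e), f (x.2 * x.1 ^ 2) := by
    intro e _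
    rw [Finset.sum_product]
  rw [Finset.sum_congr rfl h1, Finset.sum_sigma']
  symm
  refine Finset.sum_bij (fun x _ => x.2.2 * x.2.1 ^ 2) ?_ ?_ ?_ ?_
  · rintro ⟨e, E, D₀⟩ hx
    simp only [mem_sigma, mem_range, mem_product, mem_monics, ensemble, mem_filter] at hx
    obtain ⟨he, ⟨hEm, hEd⟩, ⟨hDm, hDd⟩, hsq⟩ := hx
    rw [mem_monics]
    refine ⟨hDm.mul (hEm.pow 2), ?_⟩
    show (D₀ * E ^ 2).natDegree = n
    rw [hDm.natDegree_mul (hEm.pow 2), natDegree_pow, hDd, hEd]
    omega
  · rintro ⟨e, E, D₀⟩ hx ⟨e', E', D₀'⟩ hx' heq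
    simp only [mem_sigma, mem_range, mem_product, mem_monics, ensemble, mem_filter] at hx hx'
    obtain ⟨he, ⟨hEm, hEd⟩, ⟨hDm, hDd⟩, hsq⟩ := hx
    obtain ⟨he', ⟨hEm', hEd'⟩, ⟨hDm', hDd'⟩, hsq'⟩ := hx'
    obtain ⟨h1, h2⟩ := decomp_unique D₀ E D₀' E' hDm hEm hDm' hEm' hsq hsq' heq
    subst h1 h2
    have : e = e' := by rw [← hEd, ← hEd']
    subst this
    rfl
  · intro D hD
    rw [mem_monics] at hD
    obtain ⟨D₀, E, h1, h2, h3, h4⟩ := exists_decomp D hD.1
    have hdeg : D₀.natDegree + 2 * E.natDegree = n := by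
      rw [← hD.2, h4, h1.natDegree_mul (h2.pow 2), natDegree_pow]
    refine ⟨⟨E.natDegree, E, D₀⟩, ?_, h4.symm⟩
    simp only [mem_sigma, mem_range, mem_product, mem_monics, ensemble, mem_filter]
    exact ⟨by omega, ⟨h2, trivial⟩, ⟨h1, by omega⟩, h3⟩
  · intro x _
    rfl

end Pool.Agent.H2.Ratios
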