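import Pool.Agent.H2.Ratios.Top
import Pool.Agent.H60.RH.Main

/-!
# The functional equation
-/

set_option autoImplicit false
set_option linter.unusedSectionVars false

open Polynomial UniqueFactorizationMonoid Finset ComplexConjugate
open scoped Classical

namespace Pool.Agent.H2.Ratios

open Pool.Agent.H69.Ratios

lemma one_le_norm_prod (s : Multiset ℂ) (h : ∀ z ∈ s, 1 ≤ ‖z‖) : 1 ≤ ‖s.prod‖ := by
  induction s using Multiset.induction_on with
  | empty => simp
  | cons z s ih =>
    rw [Multiset.prod_cons, norm_mul]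
    have h1 := h z (Multiset.mem_cons_self z s)
    have h2 := ih fun w hw => h w (Multiset.mem_cons_of_mem hw)
    exact one_le_mul_of_one_le_of_one_le h1 h2

lemma norm_eq_one_of_prod (s : Multiset ℂ) (h : ∀ z ∈ s, 1 ≤ ‖z‖) (hp : ‖s.prod‖ = 1) :
    ∀ z ∈ s, ‖z‖ = 1 := by
  intro z hz
  obtain ⟨t, rfl⟩ := Multiset.exists_cons_of_mem hz
  have h1 := h z hz
  have h2 := one_le_norm_prod t fun w hw => h w (Multiset.mem_cons_of_mem hw)
  rw [Multiset.prod_cons, norm_mul] at hp
  nlinarith [norm_nonneg z, norm_nonneg t.prod]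

lemma lead_bound (p : ℂ[X]) (m : ℕ) (hm : p.natDegree ≤ m) (h0 : p.coeff 0 = 1)
    (hr : ∀ z, p.eval z = 0 → 1 ≤ ‖z‖) : ‖p.coeff m‖ ≤ 1 := by
  rcases hm.lt_or_eq with h | h
  · rw [coeff_eq_zero_of_natDegree_lt h]; simp
  · have hp : p ≠ 0 := by rintro rfl; simp at h0
    have h1 := (IsAlgClosed.splits p).coeff_zero_eq_leadingCoeff_mul_prod_roots
    have h2 : 1 ≤ ‖p.roots.prod‖ := one_le_norm_prod _ fun z hz =>
      hr z ((mem_roots hp).mp hz)
    have h3 := congrArg norm h1
    rw [h0, norm_mul, norm_mul, norm_pow, norm_neg, norm_one, one_pow, one_mul] at h3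
    rw [← h]
    show ‖p.leadingCoeff‖ ≤ 1
    nlinarith [norm_nonneg p.leadingCoeff]

lemma fe_general (p : ℂ[X]) (m : ℕ) (hm : p.natDegree = m) (hlc : p.leadingCoeff = 1)
    (h0 : p.coeff 0 = 1) (hreal : ∀ i, conj (p.coeff i) = p.coeff i)
    (hr : ∀ z, p.eval z = 0 → 1 ≤ ‖z‖) (v : ℂ) (hv : v ≠ 0) :
    v ^ m * p.eval v⁻¹ = p.eval v := by
  have hp : p ≠ 0 := by rintro rfl; simp at h0
  have hmon : p.Monic := hlc
  have hsp := IsAlgClosed.splits p
  have hcard : p.roots.card = m := by rw [← hm, hsp.natDegree_eq_card_roots]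
  have h1 := hsp.coeff_zero_eq_prod_roots_of_monic hmon
  have hnorm : ∀ z ∈ p.roots, ‖z‖ = 1 := by
    refine norm_eq_one_of_prod _ (fun z hz => hr z ((mem_roots hp).mp hz)) ?_
    have h3 := congrArg norm h1
    rw [h0, norm_mul, norm_pow, norm_neg, norm_one, one_pow, one_mul] at h3
    exact h3.symm
  have hneg : (p.roots.map (fun z => -z)).prod = 1 := by
    rw [← h0, h1, ← hsp.natDegree_eq_card_roots.symm]
    rw [Multiset.prod_map_neg]
  have hconj : p.eval v = conj (p.eval (conj v)) := by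
    rw [eval_eq_sum_range, eval_eq_sum_range, map_sum]
    refine Finset.sum_congr rfl fun i _ => ?_
    rw [map_mul, hreal, map_pow, Complex.conj_conj]
  have hev : ∀ x, p.eval x = (p.roots.map (fun z => x - z)).prod := fun x =>
    hsp.eval_eq_prod_roots_of_monic hmon x
  have hvm : v ^ m = (p.roots.map (fun _ => v)).prod := by
    rw [Multiset.map_const', Multiset.prod_replicate, hcard]
  rw [hvm, hev v⁻¹, ← Multiset.prod_map_mul, hconj, hev (conj v), map_multiset_prod,
    Multiset.map_map]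
  have h5 : (p.roots.map (fun z => v * (v⁻¹ - z))).prod =
      (p.roots.map (fun z => -z * (v - conj z))).prod := by
    congr 1
    refine Multiset.map_congr rfl fun z hz => ?_
    have hz1 := hnorm z hz
    have hzc : z * conj z = 1 := by
      rw [Complex.mul_conj, Complex.normSq_eq_norm_sq, hz1]; norm_num
    field_simp
    linear_combination -hzc
  rw [h5, Multiset.prod_map_mul, hneg, one_mul]
  congr 1
  refine Multiset.map_congr rfl fun z _ => ?_
  simp

variable {F : Type} [Field F] [Fintype F]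

/-- normalized coefficients -/
noncomputable def lc (D : F[X]) (n : ℕ) : ℂ := (coef D n : ℂ) / ((√(Fintype.card F) : ℝ) : ℂ) ^ n

/-- the normalized `L`-polynomial -/
noncomputable def Np (D : F[X]) : ℂ[X] := ∑ n ∈ range D.natDegree, C (lc D n) * X ^ n

lemma coeff_Np (D : F[X]) (n : ℕ) (hn : n < D.natDegree) : (Np D).coeff n = lc D n := by
  simp only [Np, finsetSum_coeff, coeff_C_mul, coeff_X_pow]
  rw [Finset.sum_eq_single n]
  · simp
  · intro b _ hb
    rw [if_neg (Ne.symm hb), mul_zero]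
  · intro h
    exact absurd (mem_range.mpr hn) h

lemma coeff_Np' (D : F[X]) (n : ℕ) (hn : D.natDegree ≤ n) : (Np D).coeff n = 0 := by
  simp only [Np, finsetSum_coeff, coeff_C_mul, coeff_X_pow]
  refine Finset.sum_eq_zero fun b hb => ?_
  rw [mem_range] at hb
  rw [if_neg (by omega), mul_zero]

lemma eval_Np (D : F[X]) (v : ℂ) :
    (Np D).eval v = ∑ n ∈ range D.natDegree, lc D n * v ^ n := by
  simp [Np, eval_finsetSum]

lemma sqrt_pos : 0 < √(Fintype.card F : ℝ) := Real.sqrt_pos.2 (by exact_mod_cast Fintype.card_pos)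

lemma Np_ne_zero (hq : Odd (Fintype.card F)) (D : F[X]) (hD : D.Monic) (hodd : Odd D.natDegree)
    (z : ℂ) (hz : ‖z‖ < 1) : (Np D).eval z ≠ 0 := by
  have hs := sqrt_pos (F := F)
  have h := Pool.Agent.H60.RH.zero_free hq D hD hodd (z / ((√(Fintype.card F) : ℝ) : ℂ)) (by
    rw [norm_div, Complex.norm_real, Real.norm_eq_abs, abs_of_pos hs, div_lt_iff₀ hs,
      inv_mul_cancel₀ hs.ne']
    exact hz)
  rw [eval_Np]
  intro h0
  apply h
  rw [← h0]
  refine Finset.sum_congr rfl fun n _ => ?_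
  rw [lc, div_pow]
  ring

lemma coef_le (hq : Odd (Fintype.card F)) (g : ℕ) (D : F[X]) (hD : D.Monic)
    (hdeg : D.natDegree = 2 * g + 1) : coef D (2 * g) ≤ (Fintype.card F : ℤ) ^ g := by
  have hs := sqrt_pos (F := F)
  have hodd : Odd D.natDegree := by rw [hdeg]; exact ⟨g, rfl⟩
  have h1 := lead_bound (Np D) (2 * g) ?_ ?_ ?_
  · rw [coeff_Np D _ (by omega), lc, norm_div, norm_pow, Complex.norm_real, Real.norm_eq_abs,
      abs_of_pos hs, Complex.norm_intCast, pow_mul, Real.sq_sqrt (Nat.cast_nonneg _),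
      div_le_one (by positivity)] at h1
    have h2 : ((coef D (2 * g) : ℤ) : ℝ) ≤ (((Fintype.card F : ℤ) ^ g : ℤ) : ℝ) := by
      push_cast
      exact (le_abs_self _).trans h1
    exact_mod_cast h2
  · rw [natDegree_le_iff_coeff_eq_zero]
    intro n hn
    exact coeff_Np' D n (by omega)
  · rw [coeff_Np D 0 (by omega), lc, coef_zero]
    simp
  · intro z hz
    by_contra hcon
    push Not at hcon
    exact Np_ne_zero hq D hD hodd z hcon hz

/-- **The top coefficient** -/
theorem coef_top (hq : Odd (Fintype.card F)) (g : ℕ) (D : F[X])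
    (hD : D ∈ ensemble F (2 * g + 1)) : coef D (2 * g) = (Fintype.card F : ℤ) ^ g := by
  rcases Nat.eq_zero_or_pos g with rfl | hg
  · simp [coef_zero]
  · have h := sum_coef_ensemble hq g hg
    have h1 : ∀ D ∈ ensemble F (2 * g + 1), coef D (2 * g) ≤ (Fintype.card F : ℤ) ^ g := by
      intro D hD
      rw [mem_ens] at hD
      exact coef_le hq g D hD.1 hD.2.1
    exact (Finset.sum_eq_sum_iff_of_le h1).mp h D hD

/-- **The functional equation** -/
theorem functional_equation (hq : Odd (Fintype.card F)) (g : ℕ) (D : F[X])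
    (hD : D ∈ ensemble F (2 * g + 1)) (v : ℂ) (hv : v ≠ 0) :
    v ^ (2 * g) * (Np D).eval v⁻¹ = (Np D).eval v := by
  have hs := sqrt_pos (F := F)
  have htop := coef_top hq g D hD
  rw [mem_ens] at hD
  have hodd : Odd D.natDegree := by rw [hD.2.1]; exact ⟨g, rfl⟩
  have hc : (Np D).coeff (2 * g) = 1 := by
    rw [coeff_Np D _ (by omega), lc, htop, pow_mul]
    have : (((√(Fintype.card F) : ℝ) : ℂ)) ^ 2 = (Fintype.card F : ℂ) := by
      rw [← Complex.ofReal_pow, Real.sq_sqrt (Nat.cast_nonneg _)]; simp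
    rw [this]
    push_cast
    rw [div_self]
    exact pow_ne_zero _ (by exact_mod_cast Fintype.card_ne_zero)
  have hnd : (Np D).natDegree = 2 * g := by
    apply le_antisymm
    · rw [natDegree_le_iff_coeff_eq_zero]
      intro n hn
      exact coeff_Np' D n (by omega)
    · apply le_natDegree_of_ne_zero
      rw [hc]
      exact one_ne_zero
  refine fe_general (Np D) (2 * g) hnd ?_ ?_ ?_ ?_ v hv
  · rw [leadingCoeff, hnd, hc]
  · rw [coeff_Np D 0 (by omega), lc, coef_zero]
    simp
  · intro i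
    rcases lt_or_ge i D.natDegree with h | h
    · rw [coeff_Np D i h, lc, map_div₀, map_pow, Complex.conj_ofReal]
      simp
    · rw [coeff_Np' D i h, map_zero]
  · intro z hz
    by_contra hcon
    push Not at hcon
    exact Np_ne_zero hq D hD.1 hodd z hcon hz

end Pool.Agent.H2.Ratios
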