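import Pool.Agent.H2.Ratios.Moments

/-!
# The reciprocal of the normalised `L`-polynomial
-/

set_option autoImplicit false
set_option linter.unusedSectionVars false

open Polynomial UniqueFactorizationMonoid Finset
open scoped Classical

namespace Pool.Agent.H2.Ratios

open Pool.Agent.H69.Ratios

variable {F : Type} [Field F] [Fintype F]

/-- normalised power sums -/
noncomputable def sc (D : F[X]) (m : ℕ) : ℂ :=
  if m = 0 then 0 else (psum D m : ℂ) / ((√(Fintype.card F) : ℝ) : ℂ) ^ m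

/-- the `L`-polynomial as a power series -/
noncomputable def Lps (D : F[X]) : PowerSeries ℂ := PowerSeries.mk (lc D)

/-- the power sums as a power series -/
noncomputable def Sps (D : F[X]) : PowerSeries ℂ := PowerSeries.mk (sc D)

/-- the coefficients of the reciprocal -/
noncomputable def hc (D : F[X]) (m : ℕ) : ℂ := PowerSeries.coeff m (Lps D)⁻¹

lemma lc_zero (D : F[X]) : lc D 0 = 1 := by
  simp [lc, coef_zero]

lemma constCoeff_Lps (D : F[X]) : PowerSeries.constantCoeff (Lps D) = 1 := by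
  rw [← PowerSeries.coeff_zero_eq_constantCoeff_apply, Lps, PowerSeries.coeff_mk, lc_zero]

lemma Lps_mul_inv (D : F[X]) : Lps D * (Lps D)⁻¹ = 1 :=
  PowerSeries.mul_inv_cancel _ (by rw [constCoeff_Lps]; exact one_ne_zero)

lemma coeff_XD (φ : PowerSeries ℂ) (n : ℕ) :
    PowerSeries.coeff n (PowerSeries.X * PowerSeries.derivative ℂ φ) =
      (n : ℂ) * PowerSeries.coeff n φ := by
  rcases n with _ | n
  · rw [PowerSeries.coeff_zero_X_mul]
    simp
  · rw [PowerSeries.coeff_succ_X_mul, PowerSeries.coeff_derivative]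
    push_cast
    ring

lemma sum_Icc_one (f : ℕ → ℂ) (n : ℕ) : ∑ m ∈ Icc 1 n, f m = ∑ k ∈ range n, f (k + 1) := by
  induction n with
  | zero => simp
  | succ n ih => rw [Finset.sum_Icc_succ_top (by omega), Finset.sum_range_succ, ih]

lemma euler_L (D : F[X]) :
    PowerSeries.X * PowerSeries.derivative ℂ (Lps D) = Sps D * Lps D := by
  have hs : ((√(Fintype.card F : ℝ) : ℝ) : ℂ) ≠ 0 := by
    exact_mod_cast (sqrt_pos (F := F)).ne'
  ext n
  rw [coeff_XD, PowerSeries.coeff_mul, Finset.Nat.sum_antidiagonal_eq_sum_range_succ_mk,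
    Finset.sum_range_succ']
  simp only [Lps, Sps, PowerSeries.coeff_mk]
  have h0 : sc D 0 = 0 := by simp [sc]
  rw [h0, zero_mul, add_zero]
  have h := recursion D n
  have h' := congrArg (Int.cast : ℤ → ℂ) h
  push_cast at h'
  rw [sum_Icc_one] at h'
  rw [lc, ← mul_div_assoc, h', Finset.sum_div]
  refine Finset.sum_congr rfl fun k hk => ?_
  rw [Finset.mem_range] at hk
  rw [sc, if_neg (Nat.succ_ne_zero k), lc]
  have hpow : ((√(Fintype.card F : ℝ) : ℝ) : ℂ) ^ n =
      ((√(Fintype.card F : ℝ) : ℝ) : ℂ) ^ (k + 1) *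
        ((√(Fintype.card F : ℝ) : ℝ) : ℂ) ^ (n - (k + 1)) := by
    rw [← pow_add]
    congr 1
    omega
  rw [hpow, mul_div_mul_comm]

lemma log_deriv (D : F[X]) (n : ℕ) :
    ∑ k ∈ range (n + 1), (k : ℂ) * lc D k * hc D (n - k) = sc D n := by
  have h : (PowerSeries.X * PowerSeries.derivative ℂ (Lps D)) * (Lps D)⁻¹ = Sps D := by
    rw [euler_L, mul_assoc, Lps_mul_inv, mul_one]
  have h2 := congrArg (PowerSeries.coeff n) h
  rw [PowerSeries.coeff_mul, Finset.Nat.sum_antidiagonal_eq_sum_range_succ_mk] at h2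
  simp only [coeff_XD] at h2
  simp only [Lps, Sps, PowerSeries.coeff_mk] at h2
  exact h2

lemma convolution (D : F[X]) (n : ℕ) :
    ∑ k ∈ range (n + 1), lc D k * hc D (n - k) = if n = 0 then 1 else 0 := by
  have h2 := congrArg (PowerSeries.coeff n) (Lps_mul_inv D)
  rw [PowerSeries.coeff_mul, Finset.Nat.sum_antidiagonal_eq_sum_range_succ_mk,
    PowerSeries.coeff_one] at h2
  simp only [Lps, PowerSeries.coeff_mk] at h2
  exact h2

lemma euler_inv (D : F[X]) :
    PowerSeries.X * PowerSeries.derivative ℂ (Lps D)⁻¹ = -(Sps D * (Lps D)⁻¹) := by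
  have h1 := Lps_mul_inv D
  have h2 := (PowerSeries.derivative ℂ).leibniz (Lps D) (Lps D)⁻¹
  rw [h1, Derivation.map_one_eq_zero, smul_eq_mul, smul_eq_mul] at h2
  have h3 := euler_L D
  calc PowerSeries.X * PowerSeries.derivative ℂ (Lps D)⁻¹ =
      (Lps D * (Lps D)⁻¹) * (PowerSeries.X * PowerSeries.derivative ℂ (Lps D)⁻¹) := by
        rw [h1, one_mul]
    _ = (Lps D)⁻¹ * PowerSeries.X * (Lps D * PowerSeries.derivative ℂ (Lps D)⁻¹) := by ring
    _ = (Lps D)⁻¹ * PowerSeries.X * (-((Lps D)⁻¹ * PowerSeries.derivative ℂ (Lps D))) := by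
        congr 1
        linear_combination -h2
    _ = -((Lps D)⁻¹ * (Lps D)⁻¹ * (PowerSeries.X * PowerSeries.derivative ℂ (Lps D))) := by ring
    _ = -(Sps D * (Lps D)⁻¹ * (Lps D * (Lps D)⁻¹)) := by rw [h3]; ring
    _ = -(Sps D * (Lps D)⁻¹) := by rw [h1, mul_one]

lemma hc_rec (D : F[X]) (n : ℕ) :
    ((n + 1 : ℕ) : ℂ) * hc D (n + 1) = -∑ k ∈ range (n + 1), sc D (k + 1) * hc D (n - k) := by
  have h2 := congrArg (PowerSeries.coeff (n + 1)) (euler_inv D)
  rw [coeff_XD, map_neg, PowerSeries.coeff_mul,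
    Finset.Nat.sum_antidiagonal_eq_sum_range_succ_mk, Finset.sum_range_succ'] at h2
  simp only [Sps, PowerSeries.coeff_mk] at h2
  have h0 : sc D 0 = 0 := by simp [sc]
  rw [h0, zero_mul, add_zero] at h2
  rw [hc, h2]
  congr 1
  refine Finset.sum_congr rfl fun k _ => ?_
  rw [hc, show n + 1 - (k + 1) = n - k by omega]

lemma hc_zero (D : F[X]) : hc D 0 = 1 := by
  have h := convolution D 0
  simpa [lc_zero] using h

lemma sc_bound (hq : Odd (Fintype.card F)) (D : F[X]) (hodd : Odd D.natDegree) (m : ℕ) :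
    ‖sc D m‖ ≤ ((6 * D.natDegree + 4 : ℕ) : ℝ) := by
  rw [sc]
  split_ifs with h
  · rw [norm_zero]
    positivity
  · have hb := Pool.Agent.H60.RH.psum_bound hq D hodd m (by omega)
    have hs := sqrt_pos (F := F)
    rw [norm_div, norm_pow, Complex.norm_real, Real.norm_eq_abs, abs_of_pos hs,
      Complex.norm_intCast, div_le_iff₀ (by positivity)]
    push_cast
    exact hb

lemma hc_sum_bound (hq : Odd (Fintype.card F)) (D : F[X]) (hodd : Odd D.natDegree) (n : ℕ) :
    ∑ j ∈ range (n + 1), ‖hc D j‖ ≤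
      ((n + (6 * D.natDegree + 4)).choose (6 * D.natDegree + 4) : ℝ) := by
  obtain ⟨K, hK⟩ : ∃ K, K = 6 * D.natDegree + 4 := ⟨_, rfl⟩
  have hsc := sc_bound hq D hodd
  rw [← hK] at hsc ⊢
  induction n with
  | zero => simp [hc_zero]
  | succ n ih =>
    rw [Finset.sum_range_succ]
    have h1 : ((n + 1 : ℕ) : ℝ) * ‖hc D (n + 1)‖ ≤ K * ∑ j ∈ range (n + 1), ‖hc D j‖ := by
      have h2 := congrArg norm (hc_rec D n)
      rw [norm_mul, norm_neg, Complex.norm_natCast] at h2
      rw [h2]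
      refine (norm_sum_le _ _).trans ?_
      rw [← Finset.sum_range_reflect, Finset.mul_sum]
      refine Finset.sum_le_sum fun j hj => ?_
      rw [Finset.mem_range] at hj
      rw [norm_mul, show n - (n + 1 - 1 - j) = j by omega]
      exact mul_le_mul_of_nonneg_right (hsc _) (norm_nonneg _)
    have h3 : ((n + 1 + K).choose K : ℝ) * (n + 1 : ℕ) =
        ((n + K).choose K : ℝ) * ((n + 1 : ℕ) + K : ℝ) := by
      have h4 := Nat.choose_mul_succ_eq (n + K) K
      rw [show n + K + 1 - K = n + 1 by omega, show n + K + 1 = n + 1 + K by ring] at h4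
      have h5 : (((n + K).choose K * (n + 1 + K) : ℕ) : ℝ) =
          (((n + 1 + K).choose K * (n + 1) : ℕ) : ℝ) := by rw [h4]
      push_cast at h5 ⊢
      linarith
    have hn : (0 : ℝ) < ((n + 1 : ℕ) : ℝ) := by positivity
    have h6 : (∑ j ∈ range (n + 1), ‖hc D j‖ + ‖hc D (n + 1)‖) * ((n + 1 : ℕ) : ℝ) ≤
        ((n + 1 + K).choose K : ℝ) * (n + 1 : ℕ) := by
      rw [h3]
      calc (∑ j ∈ range (n + 1), ‖hc D j‖ + ‖hc D (n + 1)‖) * ((n + 1 : ℕ) : ℝ) =
          (∑ j ∈ range (n + 1), ‖hc D j‖) * ((n + 1 : ℕ) : ℝ) +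
            ((n + 1 : ℕ) : ℝ) * ‖hc D (n + 1)‖ := by ring
        _ ≤ (∑ j ∈ range (n + 1), ‖hc D j‖) * ((n + 1 : ℕ) : ℝ) +
            K * ∑ j ∈ range (n + 1), ‖hc D j‖ := by linarith
        _ = (∑ j ∈ range (n + 1), ‖hc D j‖) * ((n + 1 : ℕ) + K : ℝ) := by ring
        _ ≤ _ := mul_le_mul_of_nonneg_right ih (by positivity)
    exact le_of_mul_le_mul_right h6 hn

lemma hc_bound (hq : Odd (Fintype.card F)) (D : F[X]) (hodd : Odd D.natDegree) (n : ℕ) :
    ‖hc D n‖ ≤ ((n + (6 * D.natDegree + 4)).choose (6 * D.natDegree + 4) : ℝ) := by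
  refine le_trans ?_ (hc_sum_bound hq D hodd n)
  exact Finset.single_le_sum (f := fun j => ‖hc D j‖) (fun _ _ => norm_nonneg _)
    (Finset.mem_range.mpr (Nat.lt_succ_self n))

lemma summable_hc (hq : Odd (Fintype.card F)) (D : F[X]) (hodd : Odd D.natDegree) (ρ : ℝ)
    (h0 : 0 ≤ ρ) (h1 : ρ < 1) : Summable (fun m => ‖hc D m‖ * ρ ^ m) := by
  have hs := summable_choose_mul_geometric_of_norm_lt_one (6 * D.natDegree + 4)
    (r := ρ) (by rw [Real.norm_eq_abs, abs_of_nonneg h0]; exact h1)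
  refine Summable.of_nonneg_of_le (fun m => by positivity) (fun m => ?_) hs
  exact mul_le_mul_of_nonneg_right (hc_bound hq D hodd m) (by positivity)

lemma lc_eq_zero (hq : Odd (Fintype.card F)) (D : F[X]) (hD : D.Monic) (hodd : Odd D.natDegree)
    (n : ℕ) (hn : D.natDegree ≤ n) : lc D n = 0 := by
  rw [lc, coef_eq_zero hq D hD hodd n hn]
  simp

lemma hasSum_inv (hq : Odd (Fintype.card F)) (D : F[X]) (hD : D.Monic) (hodd : Odd D.natDegree)
    (u : ℂ) (hu : ‖u‖ < 1) : HasSum (fun m => hc D m * u ^ m) ((Np D).eval u)⁻¹ := by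
  have hs1 : Summable (fun m => ‖hc D m * u ^ m‖) := by
    have := summable_hc hq D hodd ‖u‖ (norm_nonneg _) hu
    simpa [norm_mul, norm_pow] using this
  have hz : ∀ n ∉ range D.natDegree, lc D n * u ^ n = 0 := by
    intro n hn
    rw [Finset.mem_range, not_lt] at hn
    rw [lc_eq_zero hq D hD hodd n hn, zero_mul]
  have hs2 : Summable (fun n => ‖lc D n * u ^ n‖) := by
    apply summable_of_ne_finset_zero (s := range D.natDegree)
    intro n hn
    rw [hz n hn, norm_zero]
  have hprod := tsum_mul_tsum_eq_tsum_sum_antidiagonal_of_summable_norm hs2 hs1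
  have hone : ∑' n, ∑ kl ∈ antidiagonal n, lc D kl.1 * u ^ kl.1 * (hc D kl.2 * u ^ kl.2) = 1 := by
    have h1 : ∀ n, ∑ kl ∈ antidiagonal n, lc D kl.1 * u ^ kl.1 * (hc D kl.2 * u ^ kl.2) =
        if n = 0 then 1 else 0 := by
      intro n
      rw [Finset.Nat.sum_antidiagonal_eq_sum_range_succ_mk]
      have h2 : ∀ k ∈ range n.succ, lc D k * u ^ k * (hc D (n - k) * u ^ (n - k)) =
          (lc D k * hc D (n - k)) * u ^ n := by
        intro k hk
        rw [Finset.mem_range] at hk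
        have : u ^ n = u ^ k * u ^ (n - k) := by
          rw [← pow_add]
          congr 1
          omega
        rw [this]
        ring
      rw [Finset.sum_congr rfl h2, ← Finset.sum_mul, convolution]
      split_ifs with h
      · rw [h, pow_zero, one_mul]
      · rw [zero_mul]
    simp only [h1]
    rw [tsum_ite_eq]
  rw [hone, tsum_eq_sum hz, ← eval_Np] at hprod
  have h3 : ∑' m, hc D m * u ^ m = ((Np D).eval u)⁻¹ := eq_inv_of_mul_eq_one_right hprod
  rw [← h3]
  exact hs1.of_norm.hasSum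

end Pool.Agent.H2.Ratios
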