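import Pool.Agent.H2.Ratios.Inverse
import Pool.Agent.H2.Ratios.Cauchy

/-!
# The second difference of the mean ratios
-/

set_option autoImplicit false
set_option linter.unusedSectionVars false

open Polynomial UniqueFactorizationMonoid Finset
open scoped Classical

namespace Pool.Agent.H2.Ratios

open Pool.Agent.H69.Ratios

variable {F : Type} [Field F] [Fintype F]

/-- the mean ratio as a polynomial in `v = q^(-α)` -/
noncomputable def PP (F : Type) [Field F] [Fintype F] (g : ℕ) (u : ℂ) : ℂ[X] :=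
  C (((ensemble F (2 * g + 1)).card : ℂ))⁻¹ *
    ∑ D ∈ ensemble F (2 * g + 1), C ((Np D).eval u)⁻¹ * Np D

/-- the coefficients of the mean ratio -/
noncomputable def rr (F : Type) [Field F] [Fintype F] (g k m : ℕ) : ℂ :=
  (((ensemble F (2 * g + 1)).card : ℂ))⁻¹ * ∑ D ∈ ensemble F (2 * g + 1), lc D k * hc D m

lemma eval_PP (g : ℕ) (u v : ℂ) : (PP F g u).eval v =
    (((ensemble F (2 * g + 1)).card : ℂ))⁻¹ *
      ∑ D ∈ ensemble F (2 * g + 1), (Np D).eval v / (Np D).eval u := by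
  rw [PP, eval_mul, eval_C, eval_finsetSum]
  congr 1
  refine Finset.sum_congr rfl fun D _ => ?_
  rw [eval_mul, eval_C, div_eq_mul_inv, mul_comm]

lemma coeff_Np_all (hq : Odd (Fintype.card F)) (D : F[X]) (hD : D.Monic) (hodd : Odd D.natDegree)
    (k : ℕ) : (Np D).coeff k = lc D k := by
  by_cases h : k < D.natDegree
  · exact coeff_Np D k h
  · rw [coeff_Np' D k (by omega), lc_eq_zero hq D hD hodd k (by omega)]

lemma ens_odd {g : ℕ} {D : F[X]} (hD : D ∈ ensemble F (2 * g + 1)) :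
    D.Monic ∧ Odd D.natDegree := by
  rw [mem_ens] at hD
  exact ⟨hD.1, by rw [hD.2.1]; exact ⟨g, rfl⟩⟩

lemma coeff_PP (hq : Odd (Fintype.card F)) (g : ℕ) (u : ℂ) (k : ℕ) : (PP F g u).coeff k =
    (((ensemble F (2 * g + 1)).card : ℂ))⁻¹ *
      ∑ D ∈ ensemble F (2 * g + 1), lc D k * ((Np D).eval u)⁻¹ := by
  rw [PP, coeff_C_mul, finsetSum_coeff]
  congr 1
  refine Finset.sum_congr rfl fun D hD => ?_
  rw [coeff_C_mul, coeff_Np_all hq D (ens_odd hD).1 (ens_odd hD).2, mul_comm]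

lemma hasSum_PP (hq : Odd (Fintype.card F)) (g : ℕ) (u : ℂ) (hu : ‖u‖ < 1) (k : ℕ) :
    HasSum (fun m => rr F g k m * u ^ m) ((PP F g u).coeff k) := by
  rw [coeff_PP hq]
  have h1 : ∀ m, rr F g k m * u ^ m = (((ensemble F (2 * g + 1)).card : ℂ))⁻¹ *
      ∑ D ∈ ensemble F (2 * g + 1), lc D k * (hc D m * u ^ m) := by
    intro m
    rw [rr, mul_assoc, Finset.sum_mul]
    congr 1
    refine Finset.sum_congr rfl fun D _ => ?_
    ring
  simp only [h1]
  apply HasSum.mul_left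
  apply hasSum_sum
  intro D hD
  exact (hasSum_inv hq D (ens_odd hD).1 (ens_odd hD).2 u hu).mul_left _

lemma summable_rr (hq : Odd (Fintype.card F)) (g k : ℕ) (ρ : ℝ) (h0 : 0 ≤ ρ) (h1 : ρ < 1) :
    Summable (fun m => ‖rr F g k m‖ * ρ ^ m) := by
  have hs : Summable (fun m => ‖((((ensemble F (2 * g + 1)).card : ℂ))⁻¹)‖ *
      ∑ D ∈ ensemble F (2 * g + 1), ‖lc D k‖ * (‖hc D m‖ * ρ ^ m)) := by
    apply Summable.mul_left
    apply summable_sum
    intro D hD
    exact (summable_hc hq D (ens_odd hD).2 ρ h0 h1).mul_left _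
  refine Summable.of_nonneg_of_le (fun m => by positivity) (fun m => ?_) hs
  rw [rr, norm_mul, mul_assoc]
  apply mul_le_mul_of_nonneg_left _ (norm_nonneg _)
  have h2 : ∑ D ∈ ensemble F (2 * g + 1), ‖lc D k‖ * (‖hc D m‖ * ρ ^ m) =
      (∑ D ∈ ensemble F (2 * g + 1), ‖lc D k‖ * ‖hc D m‖) * ρ ^ m := by
    rw [Finset.sum_mul]
    refine Finset.sum_congr rfl fun D _ => ?_
    ring
  rw [h2]
  apply mul_le_mul_of_nonneg_right _ (by positivity)
  refine (norm_sum_le _ _).trans ?_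
  refine Finset.sum_le_sum fun D _ => ?_
  rw [norm_mul]

lemma fe_PP (hq : Odd (Fintype.card F)) (g : ℕ) (u v : ℂ) (hv : v ≠ 0) :
    v ^ (2 * g) * (PP F g u).eval v⁻¹ = (PP F g u).eval v := by
  rw [eval_PP, eval_PP, mul_left_comm, Finset.mul_sum]
  congr 1
  refine Finset.sum_congr rfl fun D hD => ?_
  rw [← mul_div_assoc, functional_equation hq g D hD v hv]

/-- the second difference -/
noncomputable def EE (F : Type) [Field F] [Fintype F] (g : ℕ) (u : ℂ) : ℂ[X] :=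
  PP F (g + 2) u - (1 + X ^ 2) * PP F (g + 1) u + X ^ 2 * PP F g u

/-- the coefficients of the second difference -/
noncomputable def ee (F : Type) [Field F] [Fintype F] (g k m : ℕ) : ℂ :=
  rr F (g + 2) k m - rr F (g + 1) k m -
    (if 2 ≤ k then rr F (g + 1) (k - 2) m - rr F g (k - 2) m else 0)

lemma eval_EE (g : ℕ) (u v : ℂ) : (EE F g u).eval v =
    (PP F (g + 2) u).eval v - (1 + v ^ 2) * (PP F (g + 1) u).eval v +
      v ^ 2 * (PP F g u).eval v := by
  rw [EE]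
  simp

lemma fe_EE (hq : Odd (Fintype.card F)) (g : ℕ) (u v : ℂ) (hv : v ≠ 0) :
    v ^ (2 * g + 4) * (EE F g u).eval v⁻¹ = (EE F g u).eval v := by
  have h2 := fe_PP hq (g + 2) u v hv
  have h1 := fe_PP hq (g + 1) u v hv
  have h0 := fe_PP hq g u v hv
  rw [eval_EE, eval_EE, ← h2, ← h1, ← h0]
  have e1 : v ^ (2 * (g + 2)) = v ^ (2 * g) * v ^ 4 := by ring
  have e2 : v ^ (2 * (g + 1)) = v ^ (2 * g) * v ^ 2 := by ring
  have e3 : v ^ (2 * g + 4) = v ^ (2 * g) * v ^ 4 := by ring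
  rw [e1, e2, e3]
  field_simp
  ring

lemma coeff_EE (g : ℕ) (u : ℂ) (k : ℕ) : (EE F g u).coeff k =
    (PP F (g + 2) u).coeff k - (PP F (g + 1) u).coeff k -
      (if 2 ≤ k then (PP F (g + 1) u).coeff (k - 2) - (PP F g u).coeff (k - 2) else 0) := by
  rw [EE, add_mul, one_mul, coeff_add, coeff_sub, coeff_add, coeff_X_pow_mul',
    coeff_X_pow_mul']
  split_ifs <;> ring

lemma hasSum_EE (hq : Odd (Fintype.card F)) (g : ℕ) (u : ℂ) (hu : ‖u‖ < 1) (k : ℕ) :
    HasSum (fun m => ee F g k m * u ^ m) ((EE F g u).coeff k) := by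
  rw [coeff_EE]
  have h1 := (hasSum_PP hq (g + 2) u hu k).sub (hasSum_PP hq (g + 1) u hu k)
  by_cases hk : 2 ≤ k
  · have h2 := (hasSum_PP hq (g + 1) u hu (k - 2)).sub (hasSum_PP hq g u hu (k - 2))
    have h3 := h1.sub h2
    rw [if_pos hk]
    refine h3.congr_fun ?_ |> fun h => h
    intro m
    simp only [ee, if_pos hk]
    ring
  · rw [if_neg hk, sub_zero]
    refine h1.congr_fun ?_ |> fun h => h
    intro m
    simp only [ee, if_neg hk]
    ring

lemma summable_ee (hq : Odd (Fintype.card F)) (g k : ℕ) (ρ : ℝ) (h0 : 0 ≤ ρ) (h1 : ρ < 1) :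
    Summable (fun m => ‖ee F g k m‖ * ρ ^ m) := by
  have s1 := summable_rr hq (g + 2) k ρ h0 h1
  have s2 := summable_rr hq (g + 1) k ρ h0 h1
  have s3 := summable_rr hq (g + 1) (k - 2) ρ h0 h1
  have s4 := summable_rr hq g (k - 2) ρ h0 h1
  refine Summable.of_nonneg_of_le (fun m => by positivity) (fun m => ?_)
    ((s1.add s2).add (s3.add s4))
  rw [← add_mul, ← add_mul, ← add_mul]
  apply mul_le_mul_of_nonneg_right _ (by positivity)
  rw [ee]
  refine (norm_sub_le _ _).trans (add_le_add (norm_sub_le _ _) ?_)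
  split_ifs
  · exact norm_sub_le _ _
  · rw [norm_zero]
    positivity

/-- the coefficient bound -/
lemma ee_bound (hq : Odd (Fintype.card F)) (g : ℕ) (r ρ S : ℝ) (hr : 1 < r) (hρ : 0 < ρ)
    (hρ1 : ρ < 1)
    (hS : ∀ v u : ℂ, ‖v‖ = r → ‖u‖ = ρ → ‖(EE F g u).eval v‖ ≤ S) (k m : ℕ) :
    ‖ee F g k m‖ * ρ ^ m ≤ S * (r ^ (g + 2))⁻¹ := by
  have hr0 : 0 < r := by linarith
  refine cauchy (fun m => ee F g k m) ρ _ hρ (summable_ee hq g k ρ hρ.le hρ1)
    (fun u => (EE F g u).coeff k) (fun u hu => hasSum_EE hq g u (by rw [hu]; exact hρ1) k) ?_ m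
  intro u hu
  have hS0 : 0 ≤ S := (norm_nonneg _).trans (hS (r : ℂ) u (by
    rw [Complex.norm_real, Real.norm_eq_abs, abs_of_pos hr0]) hu)
  have h1 := cauchy_poly (EE F g u) r S hr0 (fun v hv => hS v u hv hu) k
  have h2 := cauchy_poly (EE F g u) r⁻¹ ((r⁻¹) ^ (2 * g + 4) * S) (inv_pos.mpr hr0) (fun v hv => by
    have hv0 : v ≠ 0 := by
      rintro rfl
      rw [norm_zero] at hv
      exact absurd hv (inv_pos.mpr hr0).ne
    rw [← fe_EE hq g u v hv0, norm_mul, norm_pow, hv]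
    apply mul_le_mul_of_nonneg_left _ (by positivity)
    apply hS _ _ _ hu
    rw [norm_inv, hv, inv_inv]) k
  rw [← div_eq_mul_inv, le_div_iff₀ (by positivity)]
  rcases le_total (g + 2) k with h | h
  · refine le_trans ?_ h1
    exact mul_le_mul_of_nonneg_left (pow_le_pow_right₀ hr.le h) (norm_nonneg _)
  · have h3 : ‖(EE F g u).coeff k‖ ≤ S * r ^ k * (r⁻¹) ^ (2 * g + 4) := by
      have h4 := mul_le_mul_of_nonneg_right h2 (by positivity : 0 ≤ r ^ k)
      rw [mul_assoc, ← mul_pow, inv_mul_cancel₀ hr0.ne', one_pow, mul_one] at h4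
      refine h4.trans (le_of_eq ?_)
      ring
    have h5 : S * r ^ k * (r⁻¹) ^ (2 * g + 4) * r ^ (g + 2) ≤ S := by
      have h6 : S * r ^ k * (r⁻¹) ^ (2 * g + 4) * r ^ (g + 2) =
          S * (r ^ k * (r⁻¹) ^ (g + 2)) := by
        have h7 : (r⁻¹) ^ (2 * g + 4) = (r⁻¹) ^ (g + 2) * (r⁻¹) ^ (g + 2) := by ring
        have h8 : (r⁻¹) ^ (g + 2) * r ^ (g + 2) = 1 := by
          rw [← mul_pow, inv_mul_cancel₀ hr0.ne', one_pow]
        rw [h7]
        linear_combination S * r ^ k * (r⁻¹) ^ (g + 2) * h8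
      rw [h6]
      have h9 : r ^ k * (r⁻¹) ^ (g + 2) ≤ 1 := by
        rw [inv_pow, ← div_eq_mul_inv, div_le_one (by positivity)]
        exact pow_le_pow_right₀ hr.le h
      calc S * (r ^ k * (r⁻¹) ^ (g + 2)) ≤ S * 1 := mul_le_mul_of_nonneg_left h9 hS0
        _ = S := mul_one S
    exact (mul_le_mul_of_nonneg_right h3 (by positivity)).trans h5

lemma sum_k_rr (g h : ℕ) (hh : 1 ≤ h) :
    ∑ k ∈ range (2 * h + 1), (k : ℂ) * rr F g k (2 * h - k) = ((TT F (2 * g + 1) h : ℝ) : ℂ) := by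
  have h1 : ∀ k ∈ range (2 * h + 1), (k : ℂ) * rr F g k (2 * h - k) =
      (((ensemble F (2 * g + 1)).card : ℂ))⁻¹ *
        ∑ D ∈ ensemble F (2 * g + 1), (k : ℂ) * lc D k * hc D (2 * h - k) := by
    intro k _
    rw [rr, mul_left_comm, Finset.mul_sum]
    congr 1
    refine Finset.sum_congr rfl fun D _ => ?_
    ring
  rw [Finset.sum_congr rfl h1, ← Finset.mul_sum, Finset.sum_comm]
  simp only [log_deriv]
  have h2 : ∀ D : F[X], sc D (2 * h) = (psum D (2 * h) : ℂ) / (Fintype.card F : ℂ) ^ h := by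
    intro D
    rw [sc, if_neg (by omega), pow_mul]
    congr 2
    rw [← Complex.ofReal_pow, Real.sq_sqrt (Nat.cast_nonneg _)]
    push_cast
    rfl
  simp only [h2]
  rw [TT, ← Finset.sum_div]
  push_cast
  rw [inv_mul_eq_div, div_div, mul_comm ((Fintype.card F : ℂ) ^ h)]

lemma sum_rr (g N : ℕ) (hN : 1 ≤ N) :
    ∑ k ∈ range (N + 1), rr F g k (N - k) = 0 := by
  have h1 : ∀ k ∈ range (N + 1), rr F g k (N - k) =
      (((ensemble F (2 * g + 1)).card : ℂ))⁻¹ *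
        ∑ D ∈ ensemble F (2 * g + 1), lc D k * hc D (N - k) := fun k _ => rfl
  rw [Finset.sum_congr rfl h1, ← Finset.mul_sum, Finset.sum_comm]
  simp only [convolution]
  rw [if_neg (by omega)]
  simp

lemma sum_k_ee (g : ℕ) (hg : 1 ≤ g) :
    ∑ k ∈ range (2 * (g + 1) + 1), (k : ℂ) * ee F g k (2 * (g + 1) - k) =
      ((TT F (2 * (g + 2) + 1) (g + 1) - TT F (2 * (g + 1) + 1) (g + 1) -
        TT F (2 * (g + 1) + 1) g + TT F (2 * g + 1) g : ℝ) : ℂ) := by
  have h1 := sum_k_rr (F := F) (g + 2) (g + 1) (by omega)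
  have h2 := sum_k_rr (F := F) (g + 1) (g + 1) (by omega)
  have h3 := sum_k_rr (F := F) (g + 1) g hg
  have h4 := sum_k_rr (F := F) g g hg
  have z3 := sum_rr (F := F) (g + 1) (2 * g) (by omega)
  have z4 := sum_rr (F := F) g (2 * g) (by omega)
  have hshift : ∑ k ∈ range (2 * (g + 1) + 1), (k : ℂ) * (if 2 ≤ k then
      rr F (g + 1) (k - 2) (2 * (g + 1) - k) - rr F g (k - 2) (2 * (g + 1) - k) else 0) =
      ∑ k ∈ range (2 * g + 1), (((k : ℂ) * rr F (g + 1) k (2 * g - k) +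
        2 * rr F (g + 1) k (2 * g - k)) - ((k : ℂ) * rr F g k (2 * g - k) +
        2 * rr F g k (2 * g - k))) := by
    rw [show 2 * (g + 1) + 1 = (2 * g + 1) + 1 + 1 by ring, Finset.sum_range_succ',
      Finset.sum_range_succ']
    rw [if_neg (by omega), if_neg (by omega), mul_zero, mul_zero, add_zero, add_zero]
    refine Finset.sum_congr rfl fun k _ => ?_
    rw [if_pos (by omega), show k + 1 + 1 - 2 = k by omega,
      show 2 * (g + 1) - (k + 1 + 1) = 2 * g - k by omega]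
    push_cast
    ring
  have hexp : ∑ k ∈ range (2 * (g + 1) + 1), (k : ℂ) * ee F g k (2 * (g + 1) - k) =
      ∑ k ∈ range (2 * (g + 1) + 1), (k : ℂ) * rr F (g + 2) k (2 * (g + 1) - k) -
      ∑ k ∈ range (2 * (g + 1) + 1), (k : ℂ) * rr F (g + 1) k (2 * (g + 1) - k) -
      ∑ k ∈ range (2 * (g + 1) + 1), (k : ℂ) * (if 2 ≤ k then
        rr F (g + 1) (k - 2) (2 * (g + 1) - k) - rr F g (k - 2) (2 * (g + 1) - k) else 0) := by
    rw [← Finset.sum_sub_distrib, ← Finset.sum_sub_distrib]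
    refine Finset.sum_congr rfl fun k _ => ?_
    rw [ee]
    ring
  rw [hexp, h1, h2, hshift, Finset.sum_sub_distrib, Finset.sum_add_distrib,
    Finset.sum_add_distrib, ← Finset.mul_sum, ← Finset.mul_sum, z3, z4, h3, h4]
  push_cast
  ring

/-- the key inequality -/
lemma key (hq : Odd (Fintype.card F)) (g : ℕ) (hg : 18 ≤ g) (r ρ S : ℝ) (hr : 1 < r)
    (hρ : 0 < ρ) (hρ1 : ρ < 1)
    (hS : ∀ v u : ℂ, ‖v‖ = r → ‖u‖ = ρ → ‖(EE F g u).eval v‖ ≤ S) :
    ((Fintype.card F : ℝ) ^ (g + 1))⁻¹ / 2 ≤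
      (2 * (g : ℝ) + 3) ^ 2 * (S * (r ^ (g + 2))⁻¹ * (ρ ^ (2 * (g + 1)))⁻¹) := by
  have h1 := Delta hq g hg
  have h2 := sum_k_ee (F := F) g (by omega)
  refine h1.trans ?_
  rw [← Real.norm_eq_abs, ← Complex.norm_real, ← h2]
  refine (norm_sum_le _ _).trans ?_
  have hS0 : 0 ≤ S := (norm_nonneg _).trans (hS (r : ℂ) (ρ : ℂ) (by
    rw [Complex.norm_real, Real.norm_eq_abs, abs_of_pos (by linarith)]) (by
    rw [Complex.norm_real, Real.norm_eq_abs, abs_of_pos hρ]))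
  have hr0 : 0 < r := by linarith
  obtain ⟨B, hB⟩ : ∃ B, B = S * (r ^ (g + 2))⁻¹ * (ρ ^ (2 * (g + 1)))⁻¹ := ⟨_, rfl⟩
  have hB0 : 0 ≤ B := by rw [hB]; positivity
  have h3 : ∀ k ∈ range (2 * (g + 1) + 1), ‖(k : ℂ) * ee F g k (2 * (g + 1) - k)‖ ≤
      (2 * (g : ℝ) + 3) * B := by
    intro k hk
    rw [Finset.mem_range] at hk
    rw [norm_mul, Complex.norm_natCast]
    have h4 : (k : ℝ) ≤ 2 * (g : ℝ) + 3 := by
      have : k ≤ 2 * g + 3 := by omega
      exact_mod_cast this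
    have h5 : ‖ee F g k (2 * (g + 1) - k)‖ ≤ B := by
      have h6 := ee_bound hq g r ρ S hr hρ hρ1 hS k (2 * (g + 1) - k)
      rw [hB]
      rw [← div_eq_mul_inv (S * (r ^ (g + 2))⁻¹), le_div_iff₀ (by positivity)]
      refine le_trans ?_ h6
      apply mul_le_mul_of_nonneg_left _ (norm_nonneg _)
      exact pow_le_pow_of_le_one hρ.le hρ1.le (by omega)
    exact mul_le_mul h4 h5 (norm_nonneg _) (by positivity)
  refine (Finset.sum_le_sum h3).trans (le_of_eq ?_)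
  rw [Finset.sum_const, Finset.card_range, nsmul_eq_mul, ← hB]
  push_cast
  ring

end Pool.Agent.H2.Ratios
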