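import Pool.Agent.H2.Ratios.Sums

/-!
# Averages of the power sums over the hyperelliptic ensemble
-/

set_option autoImplicit false
set_option linter.unusedSectionVars false

open Polynomial UniqueFactorizationMonoid Finset
open scoped Classical

namespace Pool.Agent.H2.Ratios

open Pool.Agent.H69.Ratios

variable {F : Type} [Field F] [Fintype F]

lemma coef_one (n : ℕ) : coef (1 : F[X]) n = (Fintype.card F : ℤ) ^ n := by
  rw [coef]
  simp only [chi_one_left, Finset.sum_const, nsmul_eq_mul, mul_one, card_monics]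
  push_cast
  rfl

lemma psum_one (m : ℕ) (hm : 1 ≤ m) : psum (1 : F[X]) m = (Fintype.card F : ℤ) ^ m := by
  induction m using Nat.strong_induction_on with
  | _ m ih =>
    obtain ⟨n, rfl⟩ : ∃ n, m = n + 1 := ⟨m - 1, by omega⟩
    have h := recursion (1 : F[X]) (n + 1)
    rw [← Finset.insert_Icc_right_eq_Icc_add_one (by omega), Finset.sum_insert (by simp), Nat.sub_self,
      coef_zero, mul_one] at h
    have h2 : ∑ k ∈ Icc 1 n, psum (1 : F[X]) k * coef (1 : F[X]) (n + 1 - k) =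
        ∑ k ∈ Icc 1 n, (Fintype.card F : ℤ) ^ (n + 1) := by
      refine Finset.sum_congr rfl fun k hk => ?_
      rw [Finset.mem_Icc] at hk
      rw [ih k (by omega) hk.1, coef_one, ← pow_add]
      congr 1
      omega
    rw [h2, Finset.sum_const, Nat.card_Icc, coef_one, nsmul_eq_mul] at h
    rw [Nat.add_sub_cancel] at h
    push_cast at h
    linarith

lemma sum_deg (m : ℕ) (hm : 1 ≤ m) :
    ∑ P ∈ (irrLe F m).filter (fun P => P.natDegree ∣ m), (P.natDegree : ℤ) =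
      (Fintype.card F : ℤ) ^ m := by
  rw [← psum_one m hm, psum]
  refine Finset.sum_congr rfl fun P hP => ?_
  rw [Finset.mem_filter, mem_irrLe] at hP
  rw [legendre_one P hP.1.2.1, one_pow, mul_one]

lemma deg_irr_le (j : ℕ) : ∑ P ∈ irr F j, (P.natDegree : ℤ) ≤ (Fintype.card F : ℤ) ^ j := by
  rcases Nat.eq_zero_or_pos j with rfl | hj
  · have : ∑ P ∈ irr F 0, (P.natDegree : ℤ) = 0 := by
      apply Finset.sum_eq_zero
      intro P hP
      rw [mem_irr] at hP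
      rw [hP.2.1]
      rfl
    rw [this]
    positivity
  · rw [← sum_deg j hj]
    apply Finset.sum_le_sum_of_subset_of_nonneg
    · intro P hP
      rw [mem_irr] at hP
      rw [Finset.mem_filter, mem_irrLe]
      exact ⟨⟨hP.1, hP.2.2, hP.2.1.le⟩, hP.2.1.dvd⟩
    · intro P _ _
      positivity

/-- primes whose degree divides `h` -/
noncomputable def Sset (F : Type) [Field F] [Fintype F] (h : ℕ) : Finset F[X] :=
  (irrLe F h).filter (fun P => P.natDegree ∣ h)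

/-- primes of small degree `d` with `2h / d` odd -/
noncomputable def Rset (F : Type) [Field F] [Fintype F] (h : ℕ) : Finset F[X] :=
  (irrLe F (2 * h)).filter (fun P => P.natDegree ∣ 2 * h ∧ ¬ P.natDegree ∣ h ∧
    P.natDegree ≠ 2 * h)

lemma Rset_deg (h : ℕ) (P : F[X]) (hP : P ∈ Rset F h) (hh : 1 ≤ h) :
    P.natDegree ≤ 2 * h / 3 := by
  rw [Rset, Finset.mem_filter, mem_irrLe] at hP
  obtain ⟨⟨_, _, _⟩, ⟨c, hc⟩, h1, h2⟩ := hP
  have hc0 : c ≠ 0 := by rintro rfl; omega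
  have hc1 : c ≠ 1 := by rintro rfl; omega
  have hc2 : c ≠ 2 := by
    rintro rfl
    exact h1 ⟨1, by omega⟩
  have hc3 : 3 ≤ c := by omega
  rw [Nat.le_div_iff_mul_le (by norm_num), hc]
  exact Nat.mul_le_mul_left _ hc3

lemma split_primes (h : ℕ) (hh : 1 ≤ h) (f : F[X] → ℤ) :
    ∑ P ∈ (irrLe F (2 * h)).filter (fun P => P.natDegree ∣ 2 * h), f P =
      ∑ P ∈ Sset F h, f P + ∑ P ∈ irr F (2 * h), f P + ∑ P ∈ Rset F h, f P := by
  rw [← Finset.sum_filter_add_sum_filter_not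
    ((irrLe F (2 * h)).filter (fun P => P.natDegree ∣ 2 * h)) (fun P => P.natDegree ∣ h) f,
    add_assoc]
  congr 1
  · apply Finset.sum_congr _ fun _ _ => rfl
    ext P
    rw [Sset, Finset.mem_filter, Finset.mem_filter, Finset.mem_filter, mem_irrLe, mem_irrLe]
    constructor
    · rintro ⟨⟨⟨h1, h2, h3⟩, h4⟩, h5⟩
      exact ⟨⟨h1, h2, Nat.le_of_dvd hh h5⟩, h5⟩
    · rintro ⟨⟨h1, h2, h3⟩, h5⟩
      exact ⟨⟨⟨h1, h2, by omega⟩, h5.mul_left 2⟩, h5⟩
  · rw [← Finset.sum_filter_add_sum_filter_not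
      (((irrLe F (2 * h)).filter (fun P => P.natDegree ∣ 2 * h)).filter
        (fun P => ¬ P.natDegree ∣ h)) (fun P => P.natDegree = 2 * h) f]
    congr 1
    · apply Finset.sum_congr _ fun _ _ => rfl
      ext P
      rw [Finset.mem_filter, Finset.mem_filter, Finset.mem_filter, mem_irrLe, mem_irr]
      constructor
      · rintro ⟨⟨⟨⟨h1, h2, h3⟩, h4⟩, h5⟩, h6⟩
        exact ⟨h1, h6, h2⟩
      · rintro ⟨h1, h2, h3⟩
        refine ⟨⟨⟨⟨h1, h3, h2.le⟩, h2.dvd⟩, ?_⟩, h2⟩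
        intro hd
        have := Nat.le_of_dvd hh hd
        omega
    · apply Finset.sum_congr _ fun _ _ => rfl
      ext P
      rw [Rset, Finset.mem_filter, Finset.mem_filter, Finset.mem_filter, Finset.mem_filter]
      tauto

/-- the weighted number of small primes of odd codegree -/
noncomputable def Rw (F : Type) [Field F] [Fintype F] (h : ℕ) : ℤ :=
  ∑ P ∈ Rset F h, (P.natDegree : ℤ)

lemma geom_le (q : ℤ) (hq : 2 ≤ q) (t : ℕ) : ∑ j ∈ range t, q ^ j ≤ q ^ t := by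
  induction t with
  | zero => simp
  | succ t ih =>
    rw [Finset.sum_range_succ, pow_succ]
    have : 0 < q ^ t := by positivity
    nlinarith

lemma Rw_nonneg (h : ℕ) : 0 ≤ Rw F h := Finset.sum_nonneg fun _ _ => by positivity

lemma Rw_le (h : ℕ) (hh : 1 ≤ h) : Rw F h ≤ (Fintype.card F : ℤ) ^ (2 * h / 3 + 1) := by
  have h1 : ∀ P ∈ Rset F h, P.natDegree ∈ range (2 * h / 3 + 1) := by
    intro P hP
    rw [Finset.mem_range]
    have := Rset_deg h P hP hh
    omega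
  rw [Rw, ← Finset.sum_fiberwise_of_maps_to h1]
  refine le_trans (Finset.sum_le_sum fun j _ => ?_) (geom_le _ one_lt_card_int _)
  refine le_trans ?_ (deg_irr_le j)
  apply Finset.sum_le_sum_of_subset_of_nonneg
  · intro P hP
    rw [Finset.mem_filter, Rset, Finset.mem_filter, mem_irrLe] at hP
    rw [mem_irr]
    exact ⟨hP.1.1.1, hP.2, hP.1.1.2.1⟩
  · intro P _ _
    positivity

lemma deg_irr (h : ℕ) (hh : 1 ≤ h) :
    ∑ P ∈ irr F (2 * h), (P.natDegree : ℤ) =
      (Fintype.card F : ℤ) ^ (2 * h) - (Fintype.card F : ℤ) ^ h - Rw F h := by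
  have h1 := split_primes (F := F) h hh (fun P => (P.natDegree : ℤ))
  rw [sum_deg (2 * h) (by omega)] at h1
  have h2 := sum_deg (F := F) h hh
  rw [← Sset] at h2
  rw [h2, ← Rw] at h1
  linarith

/-- the sum of the power sums -/
lemma sum_psum (n h : ℕ) (hh : 1 ≤ h) :
    ∑ D ∈ ensemble F n, psum D (2 * h) =
      ∑ P ∈ Sset F h, (P.natDegree : ℤ) * CC n P +
      ∑ P ∈ irr F (2 * h), (P.natDegree : ℤ) * BB n P +
      ∑ P ∈ Rset F h, (P.natDegree : ℤ) * BB n P := by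
  have h1 : ∀ D : F[X], psum D (2 * h) = ∑ P ∈ Sset F h, (P.natDegree : ℤ) *
      (if P ∣ D then 0 else 1) + ∑ P ∈ irr F (2 * h), (P.natDegree : ℤ) * legendre D P +
        ∑ P ∈ Rset F h, (P.natDegree : ℤ) * legendre D P := by
    intro D
    rw [psum, split_primes h hh]
    congr 1
    · congr 1
      · refine Finset.sum_congr rfl fun P hP => ?_
        rw [Sset, Finset.mem_filter, mem_irrLe] at hP
        obtain ⟨⟨_, hPi, _⟩, c, hc⟩ := hP
        have hd := hPi.natDegree_pos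
        have hc0 : 0 < c := by
          rcases Nat.eq_zero_or_pos c with rfl | h
          · omega
          · exact h
        have h2 : 2 * h / P.natDegree = 2 * c := by
          apply Nat.div_eq_of_eq_mul_left hd
          rw [hc]
          ring
        rw [h2, pow_mul, legendre_sq]
        congr 1
        split_ifs
        · rw [zero_pow hc0.ne']
        · rw [one_pow]
      · refine Finset.sum_congr rfl fun P hP => ?_
        rw [mem_irr] at hP
        rw [hP.2.1, Nat.div_self (by omega), pow_one]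
    · refine Finset.sum_congr rfl fun P hP => ?_
      rw [Rset, Finset.mem_filter, mem_irrLe] at hP
      obtain ⟨⟨_, hPi, _⟩, ⟨c, hc⟩, h3, _⟩ := hP
      have hd := hPi.natDegree_pos
      have h2 : 2 * h / P.natDegree = c := by
        apply Nat.div_eq_of_eq_mul_left hd
        rw [hc]
        ring
      have hodd : Odd c := by
        rw [← Nat.not_even_iff_odd]
        rintro ⟨c', rfl⟩
        apply h3
        refine ⟨c', ?_⟩
        have : 2 * h = 2 * (P.natDegree * c') := by rw [hc]; ring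
        omega
      rw [h2]
      congr 1
      have hm := legendre_mem D P
      simp only [Set.mem_insert_iff, Set.mem_singleton_iff] at hm
      rcases hm with h | h | h <;> rw [h]
      · rw [zero_pow hodd.pos.ne']
      · rw [one_pow]
      · rw [hodd.neg_one_pow]
  simp only [h1, Finset.sum_add_distrib]
  rw [Finset.sum_comm, Finset.sum_comm (s := ensemble F n) (t := irr F (2 * h)),
    Finset.sum_comm (s := ensemble F n) (t := Rset F h)]
  simp only [← Finset.mul_sum]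
  rfl

/-- the main term constant -/
noncomputable def KK (F : Type) [Field F] [Fintype F] (h : ℕ) : ℝ :=
  ∑ P ∈ Sset F h, (P.natDegree : ℝ) *
    ((Fintype.card F : ℝ) ^ P.natDegree / ((Fintype.card F : ℝ) ^ P.natDegree + 1))

lemma card_ens_real (n : ℕ) (hn : 2 ≤ n) : ((ensemble F n).card : ℝ) =
    (1 - 1 / (Fintype.card F : ℝ)) * (Fintype.card F : ℝ) ^ n := by
  obtain ⟨m, rfl⟩ : ∃ m, n = m + 2 := ⟨n - 2, by omega⟩
  have h := card_ensemble (F := F) m
  have h2 : ((ensemble F (m + 2)).card : ℝ) = (((ensemble F (m + 2)).card : ℤ) : ℝ) := by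
    push_cast; rfl
  rw [h2, h]
  have hq0 : (Fintype.card F : ℝ) ≠ 0 := by
    have := Fintype.card_pos (α := F)
    positivity
  push_cast
  field_simp
  ring

lemma S_part (n h : ℕ) (hh : 1 ≤ h) (hn : 2 ≤ n) :
    |∑ P ∈ Sset F h, (P.natDegree : ℝ) * (CC n P : ℝ) - KK F h * (ensemble F n).card| ≤
      3 * (Fintype.card F : ℝ) ^ h := by
  rw [KK, Finset.sum_mul, ← Finset.sum_sub_distrib]
  refine (Finset.abs_sum_le_sum_abs _ _).trans ?_
  have h1 : ∀ P ∈ Sset F h, |(P.natDegree : ℝ) * (CC n P : ℝ) - (P.natDegree : ℝ) *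
      ((Fintype.card F : ℝ) ^ P.natDegree / ((Fintype.card F : ℝ) ^ P.natDegree + 1)) *
        (ensemble F n).card| ≤ (P.natDegree : ℝ) * 3 := by
    intro P hP
    rw [Sset, Finset.mem_filter, mem_irrLe] at hP
    rw [card_ens_real n hn, mul_assoc, ← mul_sub, abs_mul, abs_of_nonneg (by positivity)]
    exact mul_le_mul_of_nonneg_left (CC_bound P hP.1.1 hP.1.2.1 _ rfl n) (by positivity)
  refine (Finset.sum_le_sum h1).trans ?_
  rw [← Finset.sum_mul, mul_comm]
  apply mul_le_mul_of_nonneg_left _ (by norm_num)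
  have h2 := sum_deg (F := F) h hh
  rw [← Sset] at h2
  have h3 : ((∑ P ∈ Sset F h, (P.natDegree : ℤ) : ℤ) : ℝ) = (Fintype.card F : ℝ) ^ h := by
    rw [h2]; push_cast; rfl
  rw [← h3]
  push_cast
  exact le_rfl

lemma R_part (hq : Odd (Fintype.card F)) (n h : ℕ) (hh : 1 ≤ h) (hn : Odd n) :
    |∑ P ∈ Rset F h, (P.natDegree : ℝ) * (BB n P : ℝ)| ≤
      (Fintype.card F : ℝ) ^ (2 * (2 * h / 3) + 2) := by
  refine (Finset.abs_sum_le_sum_abs _ _).trans ?_
  have hq1 : (1 : ℝ) ≤ Fintype.card F := by exact_mod_cast Fintype.card_pos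
  have h1 : ∀ P ∈ Rset F h, |(P.natDegree : ℝ) * (BB n P : ℝ)| ≤ (P.natDegree : ℝ) *
      (Fintype.card F : ℝ) ^ (2 * h / 3 + 1) := by
    intro P hP
    have hd := Rset_deg h P hP hh
    rw [Rset, Finset.mem_filter, mem_irrLe] at hP
    rw [abs_mul, abs_of_nonneg (by positivity : (0 : ℝ) ≤ (P.natDegree : ℝ))]
    apply mul_le_mul_of_nonneg_left _ (by positivity)
    have h2 := abs_BB_le hq P hP.1.1 hP.1.2.1 n hn
    have h3 : |(BB n P : ℝ)| ≤ (Fintype.card F : ℝ) ^ (P.natDegree + 1) := by exact_mod_cast h2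
    exact h3.trans (pow_le_pow_right₀ hq1 (by omega))
  refine (Finset.sum_le_sum h1).trans ?_
  rw [← Finset.sum_mul]
  have h2 : ∑ P ∈ Rset F h, (P.natDegree : ℝ) ≤ (Fintype.card F : ℝ) ^ (2 * h / 3 + 1) := by
    have h3 := Rw_le (F := F) h hh
    have h4 : ((Rw F h : ℤ) : ℝ) ≤ (((Fintype.card F : ℤ) ^ (2 * h / 3 + 1) : ℤ) : ℝ) := by
      exact_mod_cast h3
    rw [Rw] at h4
    push_cast at h4
    exact h4
  have h5 : (Fintype.card F : ℝ) ^ (2 * (2 * h / 3) + 2) =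
      (Fintype.card F : ℝ) ^ (2 * h / 3 + 1) * (Fintype.card F : ℝ) ^ (2 * h / 3 + 1) := by
    rw [← pow_add]
    congr 1
    ring
  rw [h5]
  exact mul_le_mul_of_nonneg_right h2 (by positivity)

/-- the mean of the normalised power sums -/
noncomputable def TT (F : Type) [Field F] [Fintype F] (n h : ℕ) : ℝ :=
  (∑ D ∈ ensemble F n, (psum D (2 * h) : ℝ)) /
    ((ensemble F n).card * (Fintype.card F : ℝ) ^ h)

lemma sum_psum_real (n h : ℕ) (hh : 1 ≤ h) :
    ∑ D ∈ ensemble F n, (psum D (2 * h) : ℝ) =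
      ∑ P ∈ Sset F h, (P.natDegree : ℝ) * (CC n P : ℝ) +
      ∑ P ∈ irr F (2 * h), (P.natDegree : ℝ) * (BB n P : ℝ) +
      ∑ P ∈ Rset F h, (P.natDegree : ℝ) * (BB n P : ℝ) := by
  have h1 := sum_psum (F := F) n h hh
  have h2 : ((∑ D ∈ ensemble F n, psum D (2 * h) : ℤ) : ℝ) =
    ((∑ P ∈ Sset F h, (P.natDegree : ℤ) * CC n P +
      ∑ P ∈ irr F (2 * h), (P.natDegree : ℤ) * BB n P +
      ∑ P ∈ Rset F h, (P.natDegree : ℤ) * BB n P : ℤ) : ℝ) := by rw [h1]
  push_cast at h2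
  exact h2

lemma TT_eq (n h : ℕ) (hh : 1 ≤ h) (hn : 2 ≤ n) (hq : Odd (Fintype.card F)) (hodd : Odd n)
    (M : ℝ) (hM : ∑ P ∈ irr F (2 * h), (P.natDegree : ℝ) * (BB n P : ℝ) = M) :
    |TT F n h - (KK F h / (Fintype.card F : ℝ) ^ h +
      M / ((ensemble F n).card * (Fintype.card F : ℝ) ^ h))| ≤
      (3 * (Fintype.card F : ℝ) ^ h + (Fintype.card F : ℝ) ^ (2 * (2 * h / 3) + 2)) /
        ((ensemble F n).card * (Fintype.card F : ℝ) ^ h) := by
  have hS := S_part (F := F) n h hh hn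
  have hR := R_part hq n h hh hodd
  have hqp : (0 : ℝ) < Fintype.card F := by exact_mod_cast Fintype.card_pos
  have hc : (0 : ℝ) < (ensemble F n).card := by
    rw [card_ens_real n hn]
    have h1 : (1 : ℝ) < Fintype.card F := by exact_mod_cast Fintype.one_lt_card
    have h2 : 0 < 1 - 1 / (Fintype.card F : ℝ) := by
      rw [sub_pos, div_lt_one hqp]; exact h1
    positivity
  have hden : 0 < ((ensemble F n).card : ℝ) * (Fintype.card F : ℝ) ^ h := by positivity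
  have hK : KK F h / (Fintype.card F : ℝ) ^ h =
      KK F h * (ensemble F n).card / ((ensemble F n).card * (Fintype.card F : ℝ) ^ h) := by
    field_simp
  rw [TT, sum_psum_real n h hh, hM, hK, ← add_div, ← sub_div, abs_div, abs_of_pos hden]
  apply div_le_div_of_nonneg_right _ hden.le
  have h1 : (∑ P ∈ Sset F h, (P.natDegree : ℝ) * (CC n P : ℝ)) + M +
      ∑ P ∈ Rset F h, (P.natDegree : ℝ) * (BB n P : ℝ) - (KK F h * (ensemble F n).card + M) =
      (∑ P ∈ Sset F h, (P.natDegree : ℝ) * (CC n P : ℝ) - KK F h * (ensemble F n).card) +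
      ∑ P ∈ Rset F h, (P.natDegree : ℝ) * (BB n P : ℝ) := by ring
  rw [h1]
  exact (abs_add_le _ _).trans (add_le_add hS hR)

lemma card_ge_three (hq : Odd (Fintype.card F)) : (3 : ℝ) ≤ Fintype.card F := by
  have h1 : 3 ≤ Fintype.card F := by
    have h2 := Fintype.one_lt_card (α := F)
    obtain ⟨k, hk⟩ := hq
    omega
  exact_mod_cast h1

lemma elem_ineq (q x y : ℝ) (hq : 3 ≤ q) (hx : 1 ≤ x) (hy : 1 ≤ y) :
    2 * ((3 * (x * y) + q ^ 2 * x ^ 2) / (x * y) ^ 3) + q * x / (x * y) ^ 2 ≤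
      3 * q ^ 2 * y⁻¹ * (x * y)⁻¹ := by
  have hx0 : 0 < x := by linarith
  have hy0 : 0 < y := by linarith
  have hxy : 0 < (x * y) ^ 3 := by positivity
  rw [← sub_nonneg]
  have h1 : 3 * q ^ 2 * y⁻¹ * (x * y)⁻¹ - (2 * ((3 * (x * y) + q ^ 2 * x ^ 2) / (x * y) ^ 3) +
      q * x / (x * y) ^ 2) = (3 * q ^ 2 * (x ^ 2 * y) - 6 * (x * y) - 2 * q ^ 2 * x ^ 2 -
        q * (x ^ 2 * y)) / (x * y) ^ 3 := by
    field_simp
    ring
  rw [h1]
  apply div_nonneg _ hxy.le
  have h2 : x * y ≤ x ^ 2 * y := by nlinarith [mul_pos hx0 hy0]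
  have h3 : x ^ 2 ≤ x ^ 2 * y := by nlinarith [mul_pos hx0 hx0]
  have h4 : q ^ 2 * x ^ 2 ≤ q ^ 2 * (x ^ 2 * y) := mul_le_mul_of_nonneg_left h3 (by positivity)
  have h5 : 0 < x ^ 2 * y := by positivity
  have h6 : 6 + q ≤ q ^ 2 := by nlinarith
  nlinarith [mul_le_mul_of_nonneg_right h6 h5.le]

/-- the normalised second difference of the means -/
lemma delta (hq : Odd (Fintype.card F)) (h : ℕ) (hh : 2 ≤ h) :
    |TT F (2 * h + 3) h - TT F (2 * h + 1) h + 1 / ((Fintype.card F : ℝ) - 1) -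
      ((Fintype.card F : ℝ) ^ h)⁻¹ / ((Fintype.card F : ℝ) - 1)| ≤
      3 * (Fintype.card F : ℝ) ^ 2 * ((Fintype.card F : ℝ) ^ (h - 2 * h / 3))⁻¹ *
        ((Fintype.card F : ℝ) ^ h)⁻¹ := by
  have hM1 : ∑ P ∈ irr F (2 * h), (P.natDegree : ℝ) * (BB (2 * h + 1) P : ℝ) =
      ((Fintype.card F : ℝ) ^ (2 * h) - (Fintype.card F : ℝ) ^ h - (Rw F h : ℝ)) *
        (Fintype.card F : ℝ) ^ h := by
    have h1 := deg_irr (F := F) h (by omega)
    have h2 : ((∑ P ∈ irr F (2 * h), (P.natDegree : ℤ) : ℤ) : ℝ) =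
      ((Fintype.card F : ℝ) ^ (2 * h) - (Fintype.card F : ℝ) ^ h - (Rw F h : ℝ)) := by
      rw [h1]; push_cast; rfl
    rw [← h2, Int.cast_sum, Finset.sum_mul]
    refine Finset.sum_congr rfl fun P hP => ?_
    rw [mem_irr] at hP
    rw [BB_top hq h (by omega) P hP.1 hP.2.2 hP.2.1]
    push_cast
    rfl
  have hM3 : ∑ P ∈ irr F (2 * h), (P.natDegree : ℝ) * (BB (2 * h + 3) P : ℝ) = 0 := by
    apply Finset.sum_eq_zero
    intro P hP
    rw [mem_irr] at hP
    rw [BB_top' hq h hh P hP.1 hP.2.2 hP.2.1]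
    simp
  have e1 := TT_eq (F := F) (2 * h + 1) h (by omega) (by omega) hq ⟨h, rfl⟩ _ hM1
  have e3 := TT_eq (F := F) (2 * h + 3) h (by omega) (by omega) hq ⟨h + 1, by ring⟩ _ hM3
  have c1 := card_ens_real (F := F) (2 * h + 1) (by omega)
  have c3 := card_ens_real (F := F) (2 * h + 3) (by omega)
  have hR0 : (0 : ℝ) ≤ (Rw F h : ℝ) := by exact_mod_cast Rw_nonneg h
  have hR1 : (Rw F h : ℝ) ≤ (Fintype.card F : ℝ) ^ (2 * h / 3 + 1) := by
    exact_mod_cast Rw_le h (by omega)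
  have hq3 := card_ge_three hq
  obtain ⟨q, hqe⟩ : ∃ q, q = (Fintype.card F : ℝ) := ⟨_, rfl⟩
  rw [← hqe] at e1 e3 c1 c3 hR1 hq3 ⊢
  obtain ⟨t, ht⟩ : ∃ t, t = 2 * h / 3 := ⟨_, rfl⟩
  obtain ⟨s, hs⟩ : ∃ s, s = h - t := ⟨_, rfl⟩
  rw [← ht] at e1 e3 hR1 ⊢
  rw [← hs]
  have hhts : h = t + s := by omega
  have hq0 : 0 < q := by linarith
  have hq1 : 0 < q - 1 := by linarith
  obtain ⟨x, hx⟩ : ∃ x, x = q ^ t := ⟨_, rfl⟩
  obtain ⟨y, hy⟩ : ∃ y, y = q ^ s := ⟨_, rfl⟩
  have hx1 : 1 ≤ x := by rw [hx]; exact one_le_pow₀ (by linarith)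
  have hy1 : 1 ≤ y := by rw [hy]; exact one_le_pow₀ (by linarith)
  have hxy : q ^ h = x * y := by rw [hhts, pow_add, hx, hy]
  have h2h : q ^ (2 * h) = (x * y) ^ 2 := by rw [mul_comm, pow_mul, hxy]
  have c1' : ((ensemble F (2 * h + 1)).card : ℝ) = (q - 1) * (x * y) ^ 2 := by
    rw [c1, pow_succ, h2h]
    field_simp
  have c3' : ((ensemble F (2 * h + 3)).card : ℝ) = (q - 1) * q ^ 2 * (x * y) ^ 2 := by
    rw [c3, pow_add, h2h]
    field_simp
  have ht2 : q ^ (2 * t + 2) = q ^ 2 * x ^ 2 := by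
    rw [hx, ← pow_mul]
    ring
  have ht1 : q ^ (t + 1) = q * x := by
    rw [hx]
    ring
  rw [c1', hxy, h2h, ht2] at e1
  rw [c3', hxy, ht2] at e3
  rw [ht1] at hR1
  rw [hxy, ← hy]
  obtain ⟨R, hR⟩ : ∃ R, R = (Rw F h : ℝ) := ⟨_, rfl⟩
  rw [← hR] at e1 hR0 hR1
  have hxp : 0 < x := by linarith
  have hyp : 0 < y := by linarith
  have hM : ((x * y) ^ 2 - x * y - R) * (x * y) / ((q - 1) * (x * y) ^ 2 * (x * y)) =
      1 / (q - 1) - (x * y)⁻¹ / (q - 1) - R / ((q - 1) * (x * y) ^ 2) := by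
    field_simp
  rw [hM] at e1
  rw [zero_div, add_zero] at e3
  have hkey : TT F (2 * h + 3) h - TT F (2 * h + 1) h + 1 / (q - 1) - (x * y)⁻¹ / (q - 1) =
      (TT F (2 * h + 3) h - KK F h / (x * y)) - (TT F (2 * h + 1) h - (KK F h / (x * y) +
        (1 / (q - 1) - (x * y)⁻¹ / (q - 1) - R / ((q - 1) * (x * y) ^ 2)))) +
          R / ((q - 1) * (x * y) ^ 2) := by ring
  rw [hkey]
  refine (abs_add_le _ _).trans ?_
  refine (add_le_add_left ((abs_sub _ _).trans (add_le_add e3 e1)) _).trans ?_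
  refine le_trans ?_ (elem_ineq q x y hq3 hx1 hy1)
  have hnum : 0 < 3 * (x * y) + q ^ 2 * x ^ 2 := by positivity
  have b1 : (3 * (x * y) + q ^ 2 * x ^ 2) / ((q - 1) * (x * y) ^ 2 * (x * y)) ≤
      (3 * (x * y) + q ^ 2 * x ^ 2) / (x * y) ^ 3 := by
    apply div_le_div_of_nonneg_left hnum.le (by positivity)
    have : (x * y) ^ 3 = 1 * ((x * y) ^ 2 * (x * y)) := by ring
    rw [this, mul_assoc]
    exact mul_le_mul_of_nonneg_right (by linarith) (by positivity)
  have b3 : (3 * (x * y) + q ^ 2 * x ^ 2) / ((q - 1) * q ^ 2 * (x * y) ^ 2 * (x * y)) ≤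
      (3 * (x * y) + q ^ 2 * x ^ 2) / (x * y) ^ 3 := by
    apply div_le_div_of_nonneg_left hnum.le (by positivity)
    have : (x * y) ^ 3 = 1 * ((x * y) ^ 2 * (x * y)) := by ring
    rw [this, mul_assoc]
    apply mul_le_mul_of_nonneg_right _ (by positivity)
    nlinarith
  have b2 : |R / ((q - 1) * (x * y) ^ 2)| ≤ q * x / (x * y) ^ 2 := by
    rw [abs_of_nonneg (by positivity)]
    apply div_le_div₀ (by positivity) hR1 (by positivity)
    nlinarith [pow_pos (mul_pos hxp hyp) 2]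
  linarith

/-- **The third order term.** -/
theorem Delta (hq : Odd (Fintype.card F)) (g : ℕ) (hg : 18 ≤ g) :
    ((Fintype.card F : ℝ) ^ (g + 1))⁻¹ / 2 ≤
      |TT F (2 * (g + 2) + 1) (g + 1) - TT F (2 * (g + 1) + 1) (g + 1) -
        TT F (2 * (g + 1) + 1) g + TT F (2 * g + 1) g| := by
  have d1 := delta hq (g + 1) (by omega)
  have d0 := delta hq g (by omega)
  have hq3 := card_ge_three hq
  rw [show 2 * (g + 1) + 3 = 2 * (g + 2) + 1 by ring] at d1
  rw [show 2 * g + 3 = 2 * (g + 1) + 1 by ring] at d0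
  obtain ⟨q, hqe⟩ : ∃ q, q = (Fintype.card F : ℝ) := ⟨_, rfl⟩
  rw [← hqe] at d1 d0 hq3 ⊢
  have hq0 : 0 < q := by linarith
  have hq1 : 0 < q - 1 := by linarith
  obtain ⟨u, hu⟩ : ∃ u, u = (q ^ (g + 1))⁻¹ := ⟨_, rfl⟩
  have hu0 : 0 < u := by rw [hu]; positivity
  have hgu : (q ^ g)⁻¹ = q * u := by
    rw [hu, pow_succ]
    field_simp
  rw [← hu] at d1 ⊢
  rw [hgu] at d0
  have hs : ∀ s : ℕ, 6 ≤ s → (q ^ s)⁻¹ ≤ (q ^ 6)⁻¹ := fun s hs =>
    inv_anti₀ (by positivity) (pow_le_pow_right₀ (by linarith) hs)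
  have h6 : (q ^ 6)⁻¹ ≤ 1 / 27 * (q ^ 3)⁻¹ := by
    have h27 : 27 ≤ q ^ 3 := by
      calc (27 : ℝ) = 3 ^ 3 := by norm_num
        _ ≤ q ^ 3 := pow_le_pow_left₀ (by norm_num) hq3 3
    have : (q ^ 6)⁻¹ = (q ^ 3)⁻¹ * (q ^ 3)⁻¹ := by
      rw [← mul_inv, ← pow_add]
    rw [this]
    apply mul_le_mul_of_nonneg_right _ (by positivity)
    rw [one_div]
    exact inv_anti₀ (by norm_num) h27
  have a1 : 3 * q ^ 2 * (q ^ (g + 1 - 2 * (g + 1) / 3))⁻¹ * u ≤ 1 / 9 * u := by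
    apply mul_le_mul_of_nonneg_right _ hu0.le
    have h1 := hs (g + 1 - 2 * (g + 1) / 3) (by omega)
    calc 3 * q ^ 2 * (q ^ (g + 1 - 2 * (g + 1) / 3))⁻¹ ≤ 3 * q ^ 2 * (1 / 27 * (q ^ 3)⁻¹) :=
          mul_le_mul_of_nonneg_left (h1.trans h6) (by positivity)
      _ = 1 / 9 * q⁻¹ := by field_simp; norm_num
      _ ≤ 1 / 9 * 1 := mul_le_mul_of_nonneg_left (inv_le_one_of_one_le₀ (by linarith))
          (by norm_num)
      _ = 1 / 9 := by norm_num
  have a0 : 3 * q ^ 2 * (q ^ (g - 2 * g / 3))⁻¹ * (q * u) ≤ 1 / 9 * u := by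
    have h1 := hs (g - 2 * g / 3) (by omega)
    calc 3 * q ^ 2 * (q ^ (g - 2 * g / 3))⁻¹ * (q * u) ≤
          3 * q ^ 2 * (1 / 27 * (q ^ 3)⁻¹) * (q * u) := by
          apply mul_le_mul_of_nonneg_right _ (by positivity)
          exact mul_le_mul_of_nonneg_left (h1.trans h6) (by positivity)
      _ = 1 / 9 * u := by field_simp; norm_num
  have d1' := d1.trans a1
  have d0' := d0.trans a0
  rw [abs_le] at d1' d0'
  have hfrac : u / (q - 1) - q * u / (q - 1) = -u := by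
    field_simp
    ring
  refine le_trans ?_ (neg_le_abs _)
  linarith [d1'.1, d1'.2, d0'.1, d0'.2]

end Pool.Agent.H2.Ratios
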