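import Pool.Agent.H2.Ratios.Periodic

/-!
# The number of squarefree polynomials and of coprime pairs
-/

set_option autoImplicit false
set_option linter.unusedSectionVars false

open Polynomial UniqueFactorizationMonoid Finset
open scoped Classical

namespace Pool.Agent.H2.Ratios

open Pool.Agent.H69.Ratios

variable {F : Type} [Field F] [Fintype F]

/-- the number of monic squarefree polynomials -/
lemma card_ensemble (n : ℕ) :
    ((ensemble F (n + 2)).card : ℤ) = (Fintype.card F : ℤ) ^ (n + 2) -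
      (Fintype.card F : ℤ) ^ (n + 1) := by
  have h : ∀ m : ℕ, (Fintype.card F : ℤ) ^ m = ∑ e ∈ range (m / 2 + 1),
      (Fintype.card F : ℤ) ^ e * ((ensemble F (m - 2 * e)).card : ℤ) := by
    intro m
    have h1 := sum_decomp (F := F) m (fun _ => 1)
    simp only [Finset.sum_const, nsmul_eq_mul, mul_one, card_monics] at h1
    push_cast at h1
    exact h1
  have h2 := h (n + 2)
  have h3 := h n
  have e1 : (n + 2) / 2 + 1 = (n / 2 + 1) + 1 := by omega
  rw [e1, Finset.sum_range_succ'] at h2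
  have e2 : ∑ k ∈ range (n / 2 + 1), (Fintype.card F : ℤ) ^ (k + 1) *
      ((ensemble F (n + 2 - 2 * (k + 1))).card : ℤ) = Fintype.card F *
        ∑ k ∈ range (n / 2 + 1), (Fintype.card F : ℤ) ^ k *
          ((ensemble F (n - 2 * k)).card : ℤ) := by
    rw [Finset.mul_sum]
    refine Finset.sum_congr rfl fun k _ => ?_
    have : n + 2 - 2 * (k + 1) = n - 2 * k := by omega
    rw [this, pow_succ]
    ring
  rw [e2, ← h3] at h2
  simp only [pow_zero, one_mul, mul_zero, Nat.sub_zero] at h2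
  rw [pow_succ (Fintype.card F : ℤ) n]
  linarith

lemma exists_gcd_decomp (D E : F[X]) (hD : D.Monic) (hE : E.Monic) :
    ∃ G D' E' : F[X], G.Monic ∧ D'.Monic ∧ E'.Monic ∧ IsCoprime D' E' ∧ D = G * D' ∧
      E = G * E' := by
  obtain ⟨g, hg⟩ : ∃ g, g = EuclideanDomain.gcd D E := ⟨_, rfl⟩
  have hg0 : g ≠ 0 := by
    rintro rfl
    exact hD.ne_zero (EuclideanDomain.gcd_eq_zero_iff.mp hg.symm).1
  have hbez := EuclideanDomain.gcd_eq_gcd_ab D E
  rw [← hg] at hbez
  obtain ⟨G, hG⟩ : ∃ G, G = normalize g := ⟨_, rfl⟩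
  have hGm : G.Monic := by rw [hG]; exact monic_normalize hg0
  have hass : Associated G g := by rw [hG]; exact normalize_associated g
  obtain ⟨D', hD'⟩ : G ∣ D := hass.dvd.trans (by rw [hg]; exact EuclideanDomain.gcd_dvd_left D E)
  obtain ⟨E', hE'⟩ : G ∣ E := hass.dvd.trans (by rw [hg]; exact EuclideanDomain.gcd_dvd_right D E)
  obtain ⟨u, hu⟩ := hass
  refine ⟨G, D', E', hGm, ?_, ?_, ?_, hD', hE'⟩
  · rw [hD'] at hD; exact hGm.of_mul_monic_left hD
  · rw [hE'] at hE; exact hGm.of_mul_monic_left hE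
  · have h1 : G * (D' * EuclideanDomain.gcdA D E + E' * EuclideanDomain.gcdB D E) =
        G * (u : F[X]) := by
      rw [hu]
      linear_combination (-EuclideanDomain.gcdA D E) * hD' - EuclideanDomain.gcdB D E * hE' - hbez
    have h2 := mul_left_cancel₀ hGm.ne_zero h1
    refine ⟨EuclideanDomain.gcdA D E * (u⁻¹ : F[X]ˣ), EuclideanDomain.gcdB D E * (u⁻¹ : F[X]ˣ),
      ?_⟩
    have h3 : (u : F[X]) * (u⁻¹ : F[X]ˣ) = 1 := Units.mul_inv u
    rw [← h3, ← h2]
    ring

lemma gcd_decomp_unique (G D' E' H D'' E'' : F[X]) (hG : G.Monic) (hH : H.Monic)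
    (h1 : IsCoprime D' E') (h2 : IsCoprime D'' E'') (hD : G * D' = H * D'')
    (hE : G * E' = H * E'') : G = H := by
  apply eq_of_monic_of_associated hG hH
  apply associated_of_dvd_dvd
  · obtain ⟨a, b, hab⟩ := h2
    refine ⟨a * D' + b * E', ?_⟩
    linear_combination (-H) * hab - a * hD - b * hE
  · obtain ⟨a, b, hab⟩ := h1
    refine ⟨a * D'' + b * E'', ?_⟩
    linear_combination (-G) * hab + a * hD + b * hE

/-- the number of coprime pairs -/
noncomputable def cop (F : Type) [Field F] [Fintype F] (a b : ℕ) : ℤ :=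
  ∑ D ∈ monics F a, ∑ E ∈ monics F b, if IsCoprime D E then 1 else 0

lemma cop_eq_card (a b : ℕ) :
    cop F a b = (((monics F a ×ˢ monics F b).filter (fun x => IsCoprime x.1 x.2)).card : ℤ) := by
  rw [cop, ← Finset.sum_product', Finset.card_filter]
  push_cast
  rfl

lemma pairs_decomp (a b : ℕ) :
    (Fintype.card F : ℤ) ^ a * (Fintype.card F : ℤ) ^ b =
      ∑ j ∈ range (min a b + 1), (Fintype.card F : ℤ) ^ j * cop F (a - j) (b - j) := by
  have h1 : (Fintype.card F : ℤ) ^ a * (Fintype.card F : ℤ) ^ b =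
      ((monics F a ×ˢ monics F b).card : ℤ) := by
    rw [Finset.card_product, card_monics, card_monics]; push_cast; ring
  have h2 : ∑ j ∈ range (min a b + 1), (Fintype.card F : ℤ) ^ j * cop F (a - j) (b - j) =
      (((range (min a b + 1)).sigma (fun j => monics F j ×ˢ
        ((monics F (a - j) ×ˢ monics F (b - j)).filter (fun x => IsCoprime x.1 x.2)))).card : ℤ) := by
    rw [Finset.card_sigma]
    push_cast
    refine Finset.sum_congr rfl fun j _ => ?_
    rw [Finset.card_product, card_monics, cop_eq_card]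
    push_cast
    ring
  rw [h1, h2]
  congr 1
  symm
  refine Finset.card_bij (fun x _ => (x.2.1 * x.2.2.1, x.2.1 * x.2.2.2)) ?_ ?_ ?_
  · rintro ⟨j, G, D, E⟩ hx
    simp only [mem_sigma, mem_range, mem_product, mem_monics, mem_filter] at hx
    obtain ⟨hj, ⟨hGm, hGd⟩, ⟨⟨hDm, hDd⟩, ⟨hEm, hEd⟩⟩, hco⟩ := hx
    simp only [mem_product, mem_monics]
    refine ⟨⟨hGm.mul hDm, ?_⟩, ⟨hGm.mul hEm, ?_⟩⟩
    · rw [hGm.natDegree_mul hDm]; omega
    · rw [hGm.natDegree_mul hEm]; omega
  · rintro ⟨j, G, D, E⟩ hx ⟨j', G', D', E'⟩ hx' heq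
    simp only [mem_sigma, mem_range, mem_product, mem_monics, mem_filter] at hx hx'
    obtain ⟨hj, ⟨hGm, hGd⟩, ⟨⟨hDm, hDd⟩, ⟨hEm, hEd⟩⟩, hco⟩ := hx
    obtain ⟨hj', ⟨hGm', hGd'⟩, ⟨⟨hDm', hDd'⟩, ⟨hEm', hEd'⟩⟩, hco'⟩ := hx'
    simp only [Prod.mk.injEq] at heq
    have hGG := gcd_decomp_unique G D E G' D' E' hGm hGm' hco hco' heq.1 heq.2
    subst hGG
    have hDD := mul_left_cancel₀ hGm.ne_zero heq.1
    have hEE := mul_left_cancel₀ hGm.ne_zero heq.2
    have hjj : j = j' := by rw [← hGd, ← hGd']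
    subst hDD hEE hjj
    rfl
  · rintro ⟨D, E⟩ hx
    simp only [mem_product, mem_monics] at hx
    obtain ⟨⟨hDm, hDd⟩, ⟨hEm, hEd⟩⟩ := hx
    obtain ⟨G, D', E', h1, h2, h3, h4, h5, h6⟩ := exists_gcd_decomp D E hDm hEm
    have d1 : G.natDegree + D'.natDegree = a := by rw [← hDd, h5, h1.natDegree_mul h2]
    have d2 : G.natDegree + E'.natDegree = b := by rw [← hEd, h6, h1.natDegree_mul h3]
    refine ⟨⟨G.natDegree, G, D', E'⟩, ?_, ?_⟩
    · simp only [mem_sigma, mem_range, mem_product, mem_monics, mem_filter]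
      exact ⟨by omega, ⟨h1, trivial⟩, ⟨⟨h2, by omega⟩, ⟨h3, by omega⟩⟩, h4⟩
    · rw [h5, h6]

/-- the number of coprime pairs of monic polynomials of positive degrees -/
lemma cop_succ (a b : ℕ) : cop F (a + 1) (b + 1) = (Fintype.card F : ℤ) ^ (a + b + 2) -
    (Fintype.card F : ℤ) ^ (a + b + 1) := by
  have h2 := pairs_decomp (F := F) (a + 1) (b + 1)
  have h3 := pairs_decomp (F := F) a b
  have e1 : min (a + 1) (b + 1) + 1 = (min a b + 1) + 1 := by omega
  rw [e1, Finset.sum_range_succ'] at h2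
  have e2 : ∑ k ∈ range (min a b + 1), (Fintype.card F : ℤ) ^ (k + 1) *
      cop F (a + 1 - (k + 1)) (b + 1 - (k + 1)) = Fintype.card F *
        ∑ k ∈ range (min a b + 1), (Fintype.card F : ℤ) ^ k * cop F (a - k) (b - k) := by
    rw [Finset.mul_sum]
    refine Finset.sum_congr rfl fun k _ => ?_
    have h4 : a + 1 - (k + 1) = a - k := by omega
    have h5 : b + 1 - (k + 1) = b - k := by omega
    rw [h4, h5, pow_succ]
    ring
  rw [e2, ← h3] at h2
  simp only [pow_zero, one_mul, Nat.sub_zero] at h2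
  have e3 : (Fintype.card F : ℤ) ^ (a + b + 2) = (Fintype.card F : ℤ) ^ (a + 1) *
      (Fintype.card F : ℤ) ^ (b + 1) := by ring
  have e4 : (Fintype.card F : ℤ) ^ (a + b + 1) = Fintype.card F *
      ((Fintype.card F : ℤ) ^ a * (Fintype.card F : ℤ) ^ b) := by ring
  rw [e3, e4]
  linarith

end Pool.Agent.H2.Ratios
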