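import Pool.Agent.H69.Ratios.Vanish

/-!
# Properties of the quadratic symbols
-/

set_option autoImplicit false
set_option linter.unusedSectionVars false

open Polynomial UniqueFactorizationMonoid Finset
open scoped Classical

namespace Pool.Agent.H2.Ratios

open Pool.Agent.H69.Ratios

variable {F : Type} [Field F] [Fintype F]

lemma finite_adj (P : F[X]) (hP : Irreducible P) : Finite (AdjoinRoot P) := by
  have : Module.Finite F (AdjoinRoot P) := (AdjoinRoot.powerBasis hP.ne_zero).finite
  exact Module.finite_of_finite F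

lemma card_adj (P : F[X]) (hP : Irreducible P) [Fintype (AdjoinRoot P)] :
    Fintype.card (AdjoinRoot P) = Fintype.card F ^ P.natDegree := by
  have : Module.Finite F (AdjoinRoot P) := (AdjoinRoot.powerBasis hP.ne_zero).finite
  rw [Module.card_eq_pow_finrank (K := F) (V := AdjoinRoot P)]
  congr 1
  exact finrank_quotient_span_eq_natDegree

lemma legendre_mul (D₁ D₂ P : F[X]) (hP : Irreducible P) :
    legendre (D₁ * D₂) P = legendre D₁ P * legendre D₂ P := by
  have : Fact (Irreducible P) := ⟨hP⟩
  have := finite_adj P hP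
  let : Fintype (AdjoinRoot P) := Fintype.ofFinite _
  rw [← quadraticChar_adjoinRoot, ← quadraticChar_adjoinRoot, ← quadraticChar_adjoinRoot,
    map_mul, map_mul]

lemma legendre_congr (D D' P : F[X]) (hP : Irreducible P) (h : P ∣ D - D') :
    legendre D P = legendre D' P := by
  have : Fact (Irreducible P) := ⟨hP⟩
  have := finite_adj P hP
  let : Fintype (AdjoinRoot P) := Fintype.ofFinite _
  rw [← quadraticChar_adjoinRoot, ← quadraticChar_adjoinRoot, AdjoinRoot.mk_eq_mk.mpr h]

lemma legendre_sq (D P : F[X]) : legendre D P ^ 2 = if P ∣ D then 0 else 1 := by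
  unfold legendre
  split_ifs <;> simp

lemma exists_nonresidue (hq : Odd (Fintype.card F)) (P : F[X]) (hP : Irreducible P) :
    ∃ t : F[X], legendre t P = -1 := by
  have : Fact (Irreducible P) := ⟨hP⟩
  have := finite_adj P hP
  let : Fintype (AdjoinRoot P) := Fintype.ofFinite _
  have h2 : ringChar (AdjoinRoot P) ≠ 2 := ringChar_ne_two_of_odd _ (by
    rw [card_adj P hP]; exact hq.pow)
  obtain ⟨a, ha⟩ := quadraticChar_exists_neg_one h2
  obtain ⟨t, rfl⟩ := AdjoinRoot.mk_surjective a
  exact ⟨t, by rw [← quadraticChar_adjoinRoot]; exact ha⟩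

lemma legendre_one (P : F[X]) (hP : Irreducible P) : legendre (1 : F[X]) P = 1 := by
  unfold legendre
  rw [if_neg (fun h => hP.not_isUnit (isUnit_of_dvd_one h)), if_pos ⟨1, by simp⟩]

lemma chi_mul_left (D₁ D₂ f : F[X]) : chi (D₁ * D₂) f = chi D₁ f * chi D₂ f := by
  unfold chi
  rw [← Multiset.prod_map_mul]
  congr 1
  refine Multiset.map_congr rfl fun P hP => ?_
  exact legendre_mul D₁ D₂ P (irreducible_of_normalized_factor _ hP)

lemma chi_congr (D D' f : F[X]) (h : f ∣ D - D') : chi D f = chi D' f := by
  unfold chi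
  congr 1
  refine Multiset.map_congr rfl fun P hP => ?_
  exact legendre_congr D D' P (irreducible_of_normalized_factor _ hP)
    ((dvd_of_mem_normalizedFactors hP).trans h)

lemma chi_one_left (f : F[X]) : chi (1 : F[X]) f = 1 := by
  unfold chi
  have : (normalizedFactors f).map (legendre (1 : F[X])) =
      (normalizedFactors f).map (fun _ => (1 : ℤ)) :=
    Multiset.map_congr rfl fun P hP => legendre_one P (irreducible_of_normalized_factor _ hP)
  rw [this]
  simp

lemma chi_eq_zero_iff (D f : F[X]) (hf : f ≠ 0) : chi D f = 0 ↔ ¬ IsCoprime D f := by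
  unfold chi
  rw [Multiset.prod_eq_zero_iff, Multiset.mem_map]
  have hleg : ∀ P : F[X], legendre D P = 0 ↔ P ∣ D := by
    intro P
    unfold legendre
    split_ifs with h1 h2 <;> simp [h1]
  constructor
  · rintro ⟨P, hP, h0⟩ hco
    have h1 := (hleg P).mp h0
    have h2 := irreducible_of_normalized_factor _ hP
    exact h2.not_isUnit (hco.isUnit_of_dvd' h1 (dvd_of_mem_normalizedFactors hP))
  · intro hco
    by_contra hcon
    push Not at hcon
    apply hco
    refine isCoprime_of_irreducible_dvd (fun h => hf h.2) fun z hz hzD hzf => ?_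
    obtain ⟨Q, hQ, hQz⟩ := exists_mem_normalizedFactors_of_dvd hf hz hzf
    exact hcon Q hQ ((hleg Q).mpr (hQz.symm.dvd.trans hzD))

lemma chi_mem (D f : F[X]) : chi D f = 0 ∨ chi D f = 1 ∨ chi D f = -1 := by
  unfold chi
  induction normalizedFactors f using Multiset.induction_on with
  | empty => simp
  | cons P s ih =>
    rw [Multiset.map_cons, Multiset.prod_cons]
    have h1 := legendre_mem D P
    simp only [Set.mem_insert_iff, Set.mem_singleton_iff] at h1
    rcases h1 with h1 | h1 | h1 <;> rcases ih with ih | ih | ih <;> simp [h1, ih]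

lemma chi_sq (D f : F[X]) (hf : f ≠ 0) : chi D f ^ 2 = if IsCoprime D f then 1 else 0 := by
  have h0 := chi_eq_zero_iff D f hf
  rcases chi_mem D f with h | h | h
  · rw [if_neg (h0.mp h), h]; norm_num
  · rw [if_pos (by by_contra hc; rw [h0.mpr hc] at h; norm_num at h), h]; norm_num
  · rw [if_pos (by by_contra hc; rw [h0.mpr hc] at h; norm_num at h), h]; norm_num

/-- **Reciprocity** when one of the degrees is even. -/
lemma chi_comm (hq : Odd (Fintype.card F)) (D f : F[X]) (hD : D.Monic) (hf : f.Monic)
    (he : Even (f.natDegree * D.natDegree)) : chi D f = chi f D := by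
  rw [chi_resultant hq D f hf, chi_resultant hq f D hD, resultant_comm, he.neg_one_pow, one_mul]

end Pool.Agent.H2.Ratios
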