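import Pool.Agent.H2.Ratios.Count
import Pool.Agent.H2.Ratios.Symbol

/-!
# Sums of periodic functions over monic polynomials
-/

set_option autoImplicit false
set_option linter.unusedSectionVars false

open Polynomial UniqueFactorizationMonoid Finset
open scoped Classical

namespace Pool.Agent.H2.Ratios

open Pool.Agent.H69.Ratios

variable {F : Type} [Field F] [Fintype F]

/-- multiply the residue modulo `M` by `t` -/
noncomputable def tw (M t D : F[X]) : F[X] := (t * D) %ₘ M + M * (D /ₘ M)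

lemma tw_spec (M : F[X]) (hM : M.Monic) (t : F[X]) (n : ℕ) (hn : M.natDegree ≤ n) (D : F[X])
    (hD : D ∈ monics F n) :
    tw M t D ∈ monics F n ∧ tw M t D %ₘ M = (t * D) %ₘ M ∧ tw M t D /ₘ M = D /ₘ M := by
  rw [mem_monics] at hD
  obtain ⟨hfm, hfn⟩ := hD
  have h1 : (D /ₘ M).natDegree = n - M.natDegree := by rw [natDegree_divByMonic D hM, hfn]
  have h2 : (D /ₘ M).Monic := by
    have := leadingCoeff_divByMonic_of_monic hM (p := D) (by
      rw [degree_eq_natDegree hM.ne_zero, degree_eq_natDegree hfm.ne_zero, hfn]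
      exact_mod_cast hn)
    rw [Monic, this, hfm.leadingCoeff]
  have h3 : ((t * D) %ₘ M).degree < M.degree := degree_modByMonic_lt _ hM
  have h4 := div_modByMonic_unique (f := tw M t D) (D /ₘ M) ((t * D) %ₘ M) hM ⟨rfl, h3⟩
  have h5 : (M * (D /ₘ M)).Monic := hM.mul h2
  have h6 : (M * (D /ₘ M)).natDegree = n := by
    rw [hM.natDegree_mul h2, h1]; omega
  have h7 : ((t * D) %ₘ M).degree < (M * (D /ₘ M)).degree := by
    refine lt_of_lt_of_le h3 ?_
    rw [degree_eq_natDegree hM.ne_zero, degree_eq_natDegree h5.ne_zero, h6]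
    exact_mod_cast hn
  refine ⟨?_, h4.2, h4.1⟩
  rw [mem_monics]
  constructor
  · exact h5.add_of_right h7
  · rw [tw, natDegree_add_eq_right_of_degree_lt h7, h6]

lemma tw_tw (M : F[X]) (hM : M.Monic) (s t : F[X]) (hst : M ∣ s * t - 1) (n : ℕ)
    (hn : M.natDegree ≤ n) (D : F[X]) (hD : D ∈ monics F n) : tw M s (tw M t D) = D := by
  obtain ⟨h1, h2, h3⟩ := tw_spec M hM t n hn D hD
  have h4 : (s * tw M t D) %ₘ M = D %ₘ M := by
    apply modByMonic_eq_of_dvd_sub hM
    have e1 : M ∣ tw M t D - t * D := by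
      have h5 := modByMonic_add_div (t * D) M
      refine ⟨D /ₘ M - (t * D) /ₘ M, ?_⟩
      rw [tw]
      linear_combination h5
    obtain ⟨a, ha⟩ := e1
    obtain ⟨b, hb⟩ := hst
    refine ⟨s * a + b * D, ?_⟩
    linear_combination s * ha + D * hb
  rw [tw, h4, h3]
  exact modByMonic_add_div D M

lemma dvd_tw_sub (M t D : F[X]) : M ∣ tw M t D - t * D := by
  have h5 := modByMonic_add_div (t * D) M
  refine ⟨D /ₘ M - (t * D) /ₘ M, ?_⟩
  rw [tw]
  linear_combination h5

/-- **Invariance** of complete sums of periodic functions. -/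
lemma twist_sum (M : F[X]) (hM : M.Monic) (t : F[X]) (ht : IsCoprime t M) (n : ℕ)
    (hn : M.natDegree ≤ n) (Φ : F[X] → ℤ) (hΦ : ∀ f g, M ∣ f - g → Φ f = Φ g) :
    ∑ D ∈ monics F n, Φ (t * D) = ∑ D ∈ monics F n, Φ D := by
  obtain ⟨s, r, hs⟩ := ht
  have hst : M ∣ s * t - 1 := ⟨-r, by linear_combination hs⟩
  have hts : M ∣ t * s - 1 := by rwa [mul_comm]
  refine Finset.sum_bij' (fun D _ => tw M t D) (fun D _ => tw M s D) ?_ ?_ ?_ ?_ ?_
  · intro D hD
    exact (tw_spec M hM t n hn D hD).1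
  · intro D hD
    exact (tw_spec M hM s n hn D hD).1
  · intro D hD
    exact tw_tw M hM s t hst n hn D hD
  · intro D hD
    exact tw_tw M hM t s hts n hn D hD
  · intro D hD
    refine hΦ _ _ ?_
    have := dvd_tw_sub M t D
    rw [← neg_sub]
    exact this.neg_right

/-- the complete sums modulo a prime vanish -/
lemma sum_legendre_eq_zero (hq : Odd (Fintype.card F)) (P : F[X]) (hPm : P.Monic)
    (hP : Irreducible P) (n : ℕ) (hn : P.natDegree ≤ n) :
    ∑ D ∈ monics F n, legendre D P = 0 := by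
  obtain ⟨t, ht⟩ := exists_nonresidue hq P hP
  have hco : IsCoprime t P := by
    refine ((hP.coprime_iff_not_dvd).mpr ?_).symm
    intro h
    rw [legendre, if_pos h] at ht
    norm_num at ht
  have h := twist_sum P hPm t hco n hn (fun D => legendre D P)
    (fun f g hfg => legendre_congr f g P hP hfg)
  simp only [legendre_mul t _ P hP, ht, neg_one_mul, Finset.sum_neg_distrib] at h
  linarith

/-- a polynomial which is not a square (up to squares: `f = D₀ E²`, `D₀ ≠ 1`) has a non-trivial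
symbol -/
lemma exists_chi_neg (hq : Odd (Fintype.card F)) (D₀ E : F[X]) (h0 : D₀.Monic) (hE : E.Monic)
    (hsq : Squarefree D₀) (hne : D₀ ≠ 1) : ∃ t : F[X], chi t (D₀ * E ^ 2) = -1 := by
  have hnu : ¬ IsUnit D₀ := fun hu => hne (h0.isUnit_iff.mp hu)
  obtain ⟨P', hP', hPd'⟩ := WfDvdMonoid.exists_irreducible_factor hnu h0.ne_zero
  obtain ⟨P, hPn⟩ : ∃ P, P = normalize P' := ⟨_, rfl⟩
  have hassoc : Associated P P' := by rw [hPn]; exact normalize_associated P'
  have hP : Irreducible P := hassoc.symm.irreducible hP'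
  have hPm : P.Monic := by rw [hPn]; exact monic_normalize hP'.ne_zero
  have hPd : P ∣ D₀ := hassoc.dvd.trans hPd'
  obtain ⟨h, hh⟩ := hPd
  have hhm : h.Monic := by rw [hh] at h0; exact hPm.of_mul_monic_left h0
  have hPh : ¬ P ∣ h := by
    rintro ⟨k, hk⟩
    apply hP.not_isUnit
    apply hsq P
    rw [hh, hk]
    exact ⟨k, by ring⟩
  have hfin : FiniteMultiplicity P E := FiniteMultiplicity.of_not_isUnit hP.not_isUnit hE.ne_zero
  obtain ⟨E', hE', hPE'⟩ := hfin.exists_eq_pow_mul_and_not_dvd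
  obtain ⟨j, hj⟩ : ∃ j, j = multiplicity P E := ⟨_, rfl⟩
  rw [← hj] at hE'
  have hE'0 : E' ≠ 0 := by
    rintro rfl
    exact hPE' (dvd_zero _)
  have hco : IsCoprime P (h * E') := by
    rw [hP.coprime_iff_not_dvd]
    intro hd
    rcases hP.prime.dvd_or_dvd hd with hd | hd
    · exact hPh hd
    · exact hPE' hd
  obtain ⟨a, b, hab⟩ := hco
  obtain ⟨s, hs⟩ := exists_nonresidue hq P hP
  obtain ⟨t, ht⟩ : ∃ t, t = 1 + (s - 1) * (b * (h * E')) := ⟨_, rfl⟩
  have hts : P ∣ t - s := ⟨-(s - 1) * a, by rw [ht]; linear_combination (s - 1) * hab⟩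
  have ht1 : h * E' ∣ t - 1 := ⟨(s - 1) * b, by rw [ht]; ring⟩
  refine ⟨t, ?_⟩
  have c1 : legendre t P = -1 := by rw [legendre_congr t s P hP hts, hs]
  have c2 : chi t h = 1 := by
    rw [chi_congr t 1 h ((dvd_mul_right h E').trans ht1), chi_one_left]
  have c3 : chi t E' = 1 := by
    rw [chi_congr t 1 E' ((dvd_mul_left E' h).trans ht1), chi_one_left]
  have c4 : chi t E ^ 2 = 1 := by
    rw [hE', chi_mul t _ _ (pow_ne_zero _ hP.ne_zero) hE'0, chi_pow t P hP.ne_zero,
      chi_irr t P hP hPm, c1, c3, mul_one, ← pow_mul, mul_comm, pow_mul]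
    norm_num
  rw [chi_mul t _ _ h0.ne_zero (pow_ne_zero _ hE.ne_zero), chi_pow t E hE.ne_zero, c4, hh,
    chi_mul t _ _ hP.ne_zero hhm.ne_zero, chi_irr t P hP hPm, c1, c2]
  norm_num

lemma isCoprime_of_chi_ne_zero (D f : F[X]) (hf : f ≠ 0) (h : chi D f ≠ 0) : IsCoprime D f := by
  by_contra hc
  exact h ((chi_eq_zero_iff D f hf).mpr hc)

/-- sums of the Jacobi symbol over complete residue systems vanish unless the modulus is a
square -/
lemma sum_chi_eq_zero (hq : Odd (Fintype.card F)) (D₀ E : F[X]) (h0 : D₀.Monic) (hE : E.Monic)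
    (hsq : Squarefree D₀) (hne : D₀ ≠ 1) (n : ℕ) (hn : (D₀ * E ^ 2).natDegree ≤ n) :
    ∑ D ∈ monics F n, chi D (D₀ * E ^ 2) = 0 := by
  obtain ⟨t, ht⟩ := exists_chi_neg hq D₀ E h0 hE hsq hne
  have hm : (D₀ * E ^ 2).Monic := h0.mul (hE.pow 2)
  have hco : IsCoprime t (D₀ * E ^ 2) := isCoprime_of_chi_ne_zero _ _ hm.ne_zero (by
    rw [ht]; norm_num)
  have h := twist_sum _ hm t hco n hn (fun D => chi D (D₀ * E ^ 2))
    (fun f g hfg => chi_congr f g _ hfg)
  simp only [chi_mul_left, ht, neg_one_mul, Finset.sum_neg_distrib] at h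
  linarith

end Pool.Agent.H2.Ratios
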