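import Pool.Agent.H2.Ratios.FE

/-!
# The sign of the functional equation for primes of even degree
-/

set_option autoImplicit false
set_option linter.unusedSectionVars false

open Polynomial UniqueFactorizationMonoid Finset
open scoped Classical

namespace Pool.Agent.H2.Ratios

open Pool.Agent.H69.Ratios

variable {F : Type} [Field F] [Fintype F]

section field

variable {K : Type} [Field K] [Fintype K] [Algebra F K]

/-- partial character sums -/
noncomputable def VV (θ : K) (n : ℕ) (t : F) : ℤ :=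
  ∑ b : Fin n → F, quadraticChar K (algebraMap F K t +
    ∑ i : Fin n, algebraMap F K (b i) * θ ^ ((i : ℕ) + 1))

lemma char_const (hq : Odd (Fintype.card F)) (heven : Even (Module.finrank F K)) (t : F)
    (ht : t ≠ 0) : quadraticChar K (algebraMap F K t) = 1 := by
  rw [← quadraticChar_norm hq, Algebra.norm_algebraMap, map_pow]
  obtain ⟨k, hk⟩ := heven
  rw [hk, ← two_mul, pow_mul]
  rcases quadraticChar_dichotomy ht with h | h <;> rw [h] <;> norm_num

lemma VV_scale (hq : Odd (Fintype.card F)) (heven : Even (Module.finrank F K)) (θ : K) (n : ℕ)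
    (t : F) (ht : t ≠ 0) : VV θ n t = VV (F := F) θ n 1 := by
  unfold VV
  symm
  refine Fintype.sum_bijective (fun b : Fin n → F => fun i => t * b i) ?_ _ _ ?_
  · constructor
    · intro b b' h
      ext i
      exact mul_left_cancel₀ ht (congrFun h i)
    · intro b
      refine ⟨fun i => t⁻¹ * b i, ?_⟩
      ext i
      simp only
      rw [← mul_assoc, mul_inv_cancel₀ ht, one_mul]
  · intro b
    have h : algebraMap F K t + ∑ i : Fin n, algebraMap F K (t * b i) * θ ^ ((i : ℕ) + 1) =
        algebraMap F K t * (algebraMap F K 1 +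
          ∑ i : Fin n, algebraMap F K (b i) * θ ^ ((i : ℕ) + 1)) := by
      rw [map_one, mul_add, mul_one, Finset.mul_sum]
      congr 1
      refine Finset.sum_congr rfl fun i _ => ?_
      rw [map_mul, mul_assoc]
    rw [h, map_mul, char_const hq heven t ht, one_mul]

lemma aeval_mp (θ : K) (n : ℕ) (b : Fin n → F) :
    aeval θ (mp n b) = θ ^ n + ∑ i : Fin n, algebraMap F K (b i) * θ ^ (i : ℕ) := by
  simp [mp]

lemma sum_G (θ : K) (n : ℕ) (Q : F[X]) (hQ : Q ∈ monics F (n + 1)) (hθ : aeval θ Q = 0)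
    (G : F → ℤ) :
    ∑ f ∈ monics F (n + 1), G (f.coeff 0) * quadraticChar K (aeval θ f) =
      ∑ s : F, G (s + Q.coeff 0) * VV θ n s := by
  rw [sum_monics]
  have h1 : ∀ b : Fin (n + 1) → F, aeval θ (mp (n + 1) b) =
      ∑ i : Fin (n + 1), algebraMap F K (b i - Q.coeff i) * θ ^ (i : ℕ) := by
    intro b
    have h2 := mp_coeff (n + 1) Q hQ
    rw [← h2, aeval_mp] at hθ
    rw [aeval_mp]
    simp only [map_sub, sub_mul, Finset.sum_sub_distrib]
    linear_combination hθ
  have h3 : ∑ b : Fin (n + 1) → F, G ((mp (n + 1) b).coeff 0) *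
      quadraticChar K (aeval θ (mp (n + 1) b)) =
      ∑ b : Fin (n + 1) → F, G (b 0 + Q.coeff 0) *
        quadraticChar K (∑ i : Fin (n + 1), algebraMap F K (b i) * θ ^ (i : ℕ)) := by
    symm
    refine Fintype.sum_bijective (fun b : Fin (n + 1) → F => fun i => b i + Q.coeff i) ?_ _ _ ?_
    · constructor
      · intro b b' h
        ext i
        exact add_right_cancel (congrFun h i)
      · intro b
        refine ⟨fun i => b i - Q.coeff i, ?_⟩
        ext i
        simp
    · intro b
      rw [h1]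
      have h4 : (mp (n + 1) (fun i => b i + Q.coeff i)).coeff 0 = b 0 + Q.coeff 0 := by
        have := coeff_mp (n + 1) (fun i => b i + Q.coeff i) 0
        simpa using this
      rw [h4]
      congr 2
      refine Finset.sum_congr rfl fun i _ => ?_
      simp
  rw [h3]
  rw [← (Fin.consEquiv (fun _ : Fin (n + 1) => F)).sum_comp, Fintype.sum_prod_type]
  refine Finset.sum_congr rfl fun s _ => ?_
  rw [VV, Finset.mul_sum]
  refine Finset.sum_congr rfl fun b _ => ?_
  rw [Fin.sum_univ_succ]
  simp [Fin.consEquiv]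

lemma inv_aux {K : Type} [Field K] (θ : K) (hθ0 : θ ≠ 0) (j i n : ℕ) (h : j + i = n) :
    θ⁻¹ ^ n * θ ^ j = θ⁻¹ ^ i := by
  rw [← h, pow_add, mul_right_comm, ← mul_pow, inv_mul_cancel₀ hθ0, one_pow, one_mul]

lemma sum_inv (θ : K) (hθ0 : θ ≠ 0) (n : ℕ) :
    ∑ h ∈ monics F n, quadraticChar K (aeval θ⁻¹ h) =
      quadraticChar K θ⁻¹ ^ n * VV (F := F) θ n 1 := by
  rw [sum_monics, VV, Finset.mul_sum]
  symm
  refine Fintype.sum_bijective (fun b : Fin n → F => fun i => b i.rev) ?_ _ _ ?_
  · constructor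
    · intro b b' h
      ext i
      have := congrFun h i.rev
      simpa using this
    · intro b
      refine ⟨fun i => b i.rev, ?_⟩
      ext i
      simp
  · intro b
    rw [← map_pow, ← map_mul, aeval_mp]
    congr 1
    rw [map_one, mul_add, mul_one, Finset.mul_sum]
    congr 1
    rw [← Equiv.sum_comp Fin.revPerm]
    refine Finset.sum_congr rfl fun i _ => ?_
    simp only [Fin.revPerm_apply]
    have hi : ((i.rev : Fin n) : ℕ) + 1 + i = n := by
      rw [Fin.val_rev]; have := i.2; omega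
    have h2 : θ⁻¹ ^ n * θ ^ (((i.rev : Fin n) : ℕ) + 1) = θ⁻¹ ^ (i : ℕ) :=
      inv_aux θ hθ0 _ _ _ hi
    rw [← h2]
    ring

end field

lemma legendre_X (f : F[X]) : legendre f X = quadraticChar F (f.coeff 0) := by
  have hX : ∀ p : F[X], X ∣ p ↔ p.coeff 0 = 0 := fun p => X_dvd_iff
  unfold legendre
  by_cases h0 : f.coeff 0 = 0
  · rw [if_pos ((hX f).mpr h0), h0, quadraticChar_zero]
  · rw [if_neg (fun h => h0 ((hX f).mp h))]
    have hsq : IsSquare (f.coeff 0) ↔ ∃ h : F[X], X ∣ f - h ^ 2 := by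
      constructor
      · rintro ⟨r, hr⟩
        refine ⟨C r, ?_⟩
        rw [hX, coeff_sub, hr, ← C_pow, coeff_C_zero]
        ring
      · rintro ⟨h, hh⟩
        rw [hX, coeff_sub, sub_eq_zero] at hh
        refine ⟨h.coeff 0, ?_⟩
        rw [hh, pow_two, mul_coeff_zero]
    split_ifs with h1
    · exact ((quadraticChar_one_iff_isSquare h0).mpr (hsq.mpr h1)).symm
    · exact (quadraticChar_neg_one_iff_not_isSquare.mpr (fun h => h1 (hsq.mp h))).symm

/-- **The top character sum modulo a prime of even degree.** -/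
theorem sum_top (hq : Odd (Fintype.card F)) (g : ℕ) (hg : 1 ≤ g) (P : F[X]) (hPm : P.Monic)
    (hP : Irreducible P) (hdeg : P.natDegree = 2 * g) :
    (Fintype.card F : ℤ) * ∑ h ∈ monics F (2 * g - 1), legendre h P =
      -(Fintype.card F : ℤ) ^ g := by
  obtain ⟨n, hn⟩ : ∃ n, n + 1 = 2 * g := ⟨2 * g - 1, by omega⟩
  have hn' : 2 * g - 1 = n := by omega
  rw [hn']
  have : Fact (Irreducible P) := ⟨hP⟩
  have := finite_adj P hP
  let : Fintype (AdjoinRoot P) := Fintype.ofFinite _
  have hfr : Module.finrank F (AdjoinRoot P) = 2 * g := by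
    rw [← hdeg]; exact finrank_quotient_span_eq_natDegree
  have heven : Even (Module.finrank F (AdjoinRoot P)) := by rw [hfr]; exact even_two_mul g
  have hfd : FiniteDimensional F (AdjoinRoot P) := Module.Finite.of_finite
  obtain ⟨η, hη⟩ : ∃ η, η = AdjoinRoot.root P := ⟨_, rfl⟩
  have hη0 : η ≠ 0 := by
    rintro h0
    have h1 : AdjoinRoot.mk P X = 0 := by rw [AdjoinRoot.mk_X, ← hη, h0]
    rw [AdjoinRoot.mk_eq_zero] at h1
    have h2 := natDegree_le_of_dvd h1 X_ne_zero
    rw [natDegree_X] at h2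
    omega
  obtain ⟨θ, hθ⟩ : ∃ θ, θ = η⁻¹ := ⟨_, rfl⟩
  have hθ0 : θ ≠ 0 := by rw [hθ]; exact inv_ne_zero hη0
  have hηθ : η = θ⁻¹ := by rw [hθ, inv_inv]
  obtain ⟨Q, hQ⟩ : ∃ Q, Q = minpoly F θ := ⟨_, rfl⟩
  have hint : IsIntegral F θ := Algebra.IsIntegral.isIntegral θ
  have hQm : Q.Monic := by rw [hQ]; exact minpoly.monic hint
  have hQi : Irreducible Q := by rw [hQ]; exact minpoly.irreducible hint
  have hQdeg : Q.natDegree = 2 * g := by
    rw [hQ, ← IntermediateField.adjoin.finrank hint]
    have htop : IntermediateField.adjoin F {θ} = (⊤ : IntermediateField F (AdjoinRoot P)) := by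
      have h1 : IntermediateField.adjoin F {η} = (⊤ : IntermediateField F (AdjoinRoot P)) := by
        rw [hη]
        exact IntermediateField.adjoin_eq_top_of_algebra _ _ AdjoinRoot.adjoinRoot_eq_top
      rw [eq_top_iff, ← h1, IntermediateField.adjoin_simple_le_iff, hηθ]
      exact inv_mem (IntermediateField.mem_adjoin_simple_self F θ)
    rw [htop, IntermediateField.finrank_top', hfr]
  have hQmem : Q ∈ monics F (n + 1) := by rw [mem_monics, hn]; exact ⟨hQm, hQdeg⟩
  have hθQ : aeval θ Q = 0 := by rw [hQ]; exact minpoly.aeval F θ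
  have hleg : ∀ f : F[X], legendre f Q = quadraticChar (AdjoinRoot P) (aeval θ f) := by
    intro f
    have h := symbol_pow hq f θ
    rw [← hQ, hfr, hQdeg, Nat.div_self (by omega), pow_one] at h
    exact h
  -- the polynomial `X Q`
  have hXQ : ¬ X ∣ Q := by
    intro hd
    obtain ⟨r, hr⟩ := hd
    have hr1 := hQi.isUnit_or_isUnit hr
    rcases hr1 with h1 | h1
    · exact not_isUnit_X h1
    · have h2 := natDegree_eq_zero_of_isUnit h1
      have h3 : r ≠ 0 := by rintro rfl; exact hQm.ne_zero (by rw [hr, mul_zero])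
      rw [hr, natDegree_mul X_ne_zero h3, natDegree_X, h2] at hQdeg
      omega
  have hcoXQ : IsCoprime (X : F[X]) Q := (irreducible_X.coprime_iff_not_dvd).mpr hXQ
  have hmem : X * Q ∈ ensemble F (2 * g + 1) := by
    rw [mem_ens]
    refine ⟨monic_X.mul hQm, ?_, ?_⟩
    · rw [monic_X.natDegree_mul hQm, natDegree_X, hQdeg]; ring
    · rw [squarefree_mul_iff]
      exact ⟨hcoXQ.isRelPrime, irreducible_X.squarefree, hQi.squarefree⟩
  have htop := coef_top hq g (X * Q) hmem
  have hc : coef (X * Q) (2 * g) = ∑ f ∈ monics F (n + 1), quadraticChar F (f.coeff 0) *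
      quadraticChar (AdjoinRoot P) (aeval θ f) := by
    rw [coef, ← hn]
    refine Finset.sum_congr rfl fun f hf => ?_
    rw [mem_monics, hn] at hf
    rw [chi_comm hq _ f (monic_X.mul hQm) hf.1 (by rw [hf.2, mul_assoc]; exact even_two_mul _),
      chi_mul f X Q X_ne_zero hQm.ne_zero, chi_irr f X irreducible_X monic_X,
      chi_irr f Q hQi hQm, legendre_X, hleg]
  have hG := sum_G θ n Q hQmem hθQ (fun s => quadraticChar F s)
  have h1 := sum_G θ n Q hQmem hθQ (fun _ => 1)
  rw [← hc, htop] at hG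
  have h0 : ∑ f ∈ monics F (n + 1), 1 * quadraticChar (AdjoinRoot P) (aeval θ f) = 0 := by
    have := sum_legendre_eq_zero hq Q hQm hQi (n + 1) (by omega)
    simp only [hleg] at this
    simpa using this
  rw [h0] at h1
  simp only [one_mul] at h1
  have hV : ∀ s : F, s ≠ 0 → VV θ n s = VV (F := F) θ n 1 := fun s hs =>
    VV_scale hq heven θ n s hs
  obtain ⟨V1, hV1⟩ : ∃ V1, V1 = VV (F := F) θ n 1 := ⟨_, rfl⟩
  obtain ⟨V0, hV0⟩ : ∃ V0, V0 = VV (F := F) θ n 0 := ⟨_, rfl⟩
  have hsplit : ∀ G : F → ℤ, ∑ s : F, G s * VV θ n s = G 0 * V0 + (∑ s : F, G s - G 0) * V1 := by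
    intro G
    rw [← Finset.add_sum_erase univ _ (mem_univ (0 : F)),
      ← Finset.add_sum_erase univ G (mem_univ (0 : F)), ← hV0, add_sub_cancel_left,
      Finset.sum_mul]
    congr 1
    refine Finset.sum_congr rfl fun s hs => ?_
    rw [hV s (Finset.ne_of_mem_erase hs), hV1]
  have h1' : V0 + ((Fintype.card F : ℤ) - 1) * V1 = 0 := by
    have h2 := hsplit (fun _ => 1)
    simp only [one_mul, Finset.sum_const, Finset.card_univ, nsmul_eq_mul, mul_one] at h2
    rw [← h2]
    exact h1.symm
  have hG' : (Fintype.card F : ℤ) ^ g = quadraticChar F (Q.coeff 0) * V0 -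
      quadraticChar F (Q.coeff 0) * V1 := by
    have h2 := hsplit (fun s => quadraticChar F (s + Q.coeff 0))
    have h3 : ∑ s : F, quadraticChar F (s + Q.coeff 0) = 0 := by
      have h4 := quadraticChar_sum_zero (ringChar_ne_two_of_odd F hq)
      rw [← Equiv.sum_comp (Equiv.addRight (Q.coeff 0))] at h4
      exact h4
    simp only [zero_add, h3] at h2
    rw [hG, h2]
    ring
  have hQ0 : Q.coeff 0 ≠ 0 := fun h => hXQ (X_dvd_iff.mpr h)
  have hεsq : quadraticChar F (Q.coeff 0) * quadraticChar F (Q.coeff 0) = 1 := by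
    rcases quadraticChar_dichotomy hQ0 with h | h <;> rw [h] <;> norm_num
  have hχθ : quadraticChar (AdjoinRoot P) θ = quadraticChar F (Q.coeff 0) := by
    have h2 := hleg X
    rw [aeval_X] at h2
    rw [← h2, ← legendre_X, ← chi_irr X Q hQi hQm, ← chi_irr Q X irreducible_X monic_X]
    exact chi_comm hq X Q monic_X hQm (by rw [hQdeg, mul_assoc]; exact even_two_mul _)
  have hχη : quadraticChar (AdjoinRoot P) θ⁻¹ = quadraticChar F (Q.coeff 0) := by
    have h2 : quadraticChar (AdjoinRoot P) θ⁻¹ * quadraticChar (AdjoinRoot P) θ = 1 := by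
      rw [← map_mul, inv_mul_cancel₀ hθ0, map_one]
    rw [hχθ] at h2
    have h3 := congrArg (· * quadraticChar F (Q.coeff 0)) h2
    simp only [mul_assoc, hεsq, mul_one, one_mul] at h3
    exact h3
  have hA : ∑ h ∈ monics F n, legendre h P = quadraticChar F (Q.coeff 0) * V1 := by
    have h2 := sum_inv (F := F) θ hθ0 n
    rw [hχη, ← hV1] at h2
    have h3 : quadraticChar F (Q.coeff 0) ^ n = quadraticChar F (Q.coeff 0) := by
      have hodd : Odd n := by rw [Nat.odd_iff]; omega
      rcases quadraticChar_dichotomy hQ0 with h | h <;> rw [h]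
      · simp
      · exact hodd.neg_one_pow
    rw [h3] at h2
    rw [← h2]
    refine Finset.sum_congr rfl fun h _ => ?_
    rw [← quadraticChar_adjoinRoot, ← hηθ, hη, AdjoinRoot.aeval_eq]
  rw [hA]
  have h5 : V0 = -((Fintype.card F : ℤ) - 1) * V1 := by linarith
  rw [h5] at hG'
  linear_combination hG'

end Pool.Agent.H2.Ratios
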