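import Pool.Agent.H2.Ratios.Sign

/-!
# Character sums over squarefree polynomials
-/

set_option autoImplicit false
set_option linter.unusedSectionVars false

open Polynomial UniqueFactorizationMonoid Finset
open scoped Classical

namespace Pool.Agent.H2.Ratios

open Pool.Agent.H69.Ratios

variable {F : Type} [Field F] [Fintype F]

/-- sums of the residue symbol over all monic polynomials -/
noncomputable def AA (n : ℕ) (P : F[X]) : ℤ := ∑ D ∈ monics F n, legendre D P

/-- sums of the residue symbol over all monic squarefree polynomials -/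
noncomputable def BB (n : ℕ) (P : F[X]) : ℤ := ∑ D ∈ ensemble F n, legendre D P

/-- the number of monic squarefree polynomials prime to `P` -/
noncomputable def CC (n : ℕ) (P : F[X]) : ℤ := ∑ D ∈ ensemble F n, if P ∣ D then 0 else 1

lemma sum_dvd_monics (P : F[X]) (hP : P.Monic) (n : ℕ) (f : F[X] → ℤ) :
    ∑ E ∈ monics F n, (if P ∣ E then f E else 0) =
      if P.natDegree ≤ n then ∑ E ∈ monics F (n - P.natDegree), f (P * E) else 0 := by
  split_ifs with h
  · rw [← Finset.sum_filter]
    symm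
    refine Finset.sum_bij (fun E _ => P * E) ?_ ?_ ?_ ?_
    · intro E hE
      rw [mem_monics] at hE
      rw [Finset.mem_filter, mem_monics]
      refine ⟨⟨hP.mul hE.1, ?_⟩, dvd_mul_right _ _⟩
      rw [hP.natDegree_mul hE.1, hE.2]
      omega
    · intro E _ E' _ he
      exact mul_left_cancel₀ hP.ne_zero he
    · intro E hE
      rw [Finset.mem_filter, mem_monics] at hE
      obtain ⟨⟨hm, hd⟩, E', rfl⟩ := hE
      have hm' : E'.Monic := hP.of_mul_monic_left hm
      refine ⟨E', ?_, rfl⟩
      rw [mem_monics]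
      refine ⟨hm', ?_⟩
      rw [hP.natDegree_mul hm'] at hd
      omega
    · intro E _
      rfl
  · apply Finset.sum_eq_zero
    intro E hE
    rw [mem_monics] at hE
    rw [if_neg]
    intro hd
    have := natDegree_le_of_dvd hd hE.1.ne_zero
    omega

lemma sum_coprime_monics (P : F[X]) (hP : P.Monic) (e : ℕ) :
    ∑ E ∈ monics F e, (if P ∣ E then (0 : ℤ) else 1) =
      (Fintype.card F : ℤ) ^ e -
        if P.natDegree ≤ e then (Fintype.card F : ℤ) ^ (e - P.natDegree) else 0 := by
  have h1 := sum_dvd_monics P hP e (fun _ => 1)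
  have h2 : ∑ E ∈ monics F e, (if P ∣ E then (0 : ℤ) else 1) =
      ∑ E ∈ monics F e, (1 : ℤ) - ∑ E ∈ monics F e, (if P ∣ E then (1 : ℤ) else 0) := by
    rw [← Finset.sum_sub_distrib]
    refine Finset.sum_congr rfl fun E _ => ?_
    split_ifs <;> norm_num
  rw [h2, h1]
  simp only [Finset.sum_const, nsmul_eq_mul, mul_one, card_monics]
  push_cast
  rfl

lemma AA_eq (P : F[X]) (hPm : P.Monic) (hP : Irreducible P) (n : ℕ) :
    AA n P = ∑ e ∈ range (n / 2 + 1), ((Fintype.card F : ℤ) ^ e -
        if P.natDegree ≤ e then (Fintype.card F : ℤ) ^ (e - P.natDegree) else 0) *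
          BB (n - 2 * e) P := by
  rw [AA, sum_decomp]
  refine Finset.sum_congr rfl fun e _ => ?_
  rw [← sum_coprime_monics P hPm e, Finset.sum_mul]
  refine Finset.sum_congr rfl fun E _ => ?_
  rw [BB, Finset.mul_sum]
  refine Finset.sum_congr rfl fun D _ => ?_
  rw [legendre_mul _ _ _ hP, pow_two, legendre_mul _ _ _ hP, ← pow_two, legendre_sq, mul_comm]

lemma BB_one (P : F[X]) (hPm : P.Monic) (hP : Irreducible P) : BB 1 P = AA 1 P := by
  rw [AA_eq P hPm hP]
  have hd : ¬ P.natDegree ≤ 0 := by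
    have := hP.natDegree_pos
    omega
  simp [hd]

lemma BB_rec (P : F[X]) (hPm : P.Monic) (hP : Irreducible P) (n : ℕ) :
    AA (n + 2) P - (Fintype.card F : ℤ) * AA n P = BB (n + 2) P -
      if 2 * P.natDegree ≤ n + 2 then BB (n + 2 - 2 * P.natDegree) P else 0 := by
  obtain ⟨q, hq⟩ : ∃ q, q = (Fintype.card F : ℤ) := ⟨_, rfl⟩
  obtain ⟨d, hd⟩ : ∃ d, d = P.natDegree := ⟨_, rfl⟩
  have hd0 : 0 < d := by rw [hd]; exact hP.natDegree_pos
  rw [AA_eq P hPm hP, AA_eq P hPm hP, ← hq, ← hd]
  have h1 : (n + 2) / 2 + 1 = (n / 2 + 1) + 1 := by omega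
  rw [h1, Finset.sum_range_succ', Finset.mul_sum]
  have h2 : ∀ e ∈ range (n / 2 + 1),
      (q ^ (e + 1) - if d ≤ e + 1 then q ^ (e + 1 - d) else 0) * BB (n + 2 - 2 * (e + 1)) P =
      q * ((q ^ e - if d ≤ e then q ^ (e - d) else 0) * BB (n - 2 * e) P) -
        if e + 1 = d then BB (n + 2 - 2 * d) P else 0 := by
    intro e he
    have h3 : n + 2 - 2 * (e + 1) = n - 2 * e := by omega
    rw [h3]
    by_cases h4 : e + 1 = d
    · have h5 : ¬ d ≤ e := by omega
      rw [if_pos h4, if_neg h5, if_pos h4.ge, ← h4, Nat.sub_self, h3]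
      ring
    · rw [if_neg h4]
      by_cases h5 : d ≤ e
      · have h6 : e + 1 - d = (e - d) + 1 := by omega
        rw [if_pos h5, if_pos (by omega), h6]
        ring
      · rw [if_neg h5, if_neg (by omega)]
        ring
  rw [Finset.sum_congr rfl h2, Finset.sum_sub_distrib]
  have h7 : ∑ e ∈ range (n / 2 + 1), (if e + 1 = d then BB (n + 2 - 2 * d) P else 0) =
      if 2 * d ≤ n + 2 then BB (n + 2 - 2 * d) P else 0 := by
    split_ifs with h8
    · rw [Finset.sum_eq_single (d - 1)]
      · rw [if_pos (by omega)]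
      · intro e _ he
        rw [if_neg (by omega)]
      · intro he
        exfalso
        apply he
        rw [Finset.mem_range]
        omega
    · apply Finset.sum_eq_zero
      intro e he
      rw [Finset.mem_range] at he
      rw [if_neg (by omega)]
  rw [h7]
  have h9 : ¬ d ≤ 0 := by omega
  rw [if_neg h9]
  simp only [pow_zero, sub_zero, one_mul, mul_zero, tsub_zero]
  ring

lemma AA_zero (hq : Odd (Fintype.card F)) (P : F[X]) (hPm : P.Monic) (hP : Irreducible P) (n : ℕ)
    (hn : P.natDegree ≤ n) : AA n P = 0 := sum_legendre_eq_zero hq P hPm hP n hn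

lemma abs_legendre_le (D P : F[X]) : |legendre D P| ≤ 1 := by
  have h := legendre_mem D P
  simp only [Set.mem_insert_iff, Set.mem_singleton_iff] at h
  rcases h with h | h | h <;> rw [h] <;> norm_num

lemma abs_AA_le (n : ℕ) (P : F[X]) : |AA n P| ≤ (Fintype.card F : ℤ) ^ n := by
  rw [AA]
  refine (Finset.abs_sum_le_sum_abs _ _).trans ?_
  refine (Finset.sum_le_sum fun D _ => abs_legendre_le D P).trans ?_
  rw [Finset.sum_const, nsmul_eq_mul, mul_one, card_monics]
  push_cast
  exact le_rfl

lemma one_lt_card_int : (1 : ℤ) < Fintype.card F := by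
  exact_mod_cast Fintype.one_lt_card

/-- bound for odd `n` -/
lemma abs_BB_le (hq : Odd (Fintype.card F)) (P : F[X]) (hPm : P.Monic) (hP : Irreducible P) :
    ∀ n, Odd n → |BB n P| ≤ (Fintype.card F : ℤ) ^ (P.natDegree + 1) := by
  have hd0 : 0 < P.natDegree := hP.natDegree_pos
  have hq1 : (1 : ℤ) ≤ Fintype.card F := one_lt_card_int.le
  have hA : ∀ n, |AA n P| ≤ (Fintype.card F : ℤ) ^ (P.natDegree - 1) := by
    intro n
    by_cases h : P.natDegree ≤ n
    · rw [AA_zero hq P hPm hP n h, abs_zero]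
      positivity
    · exact (abs_AA_le n P).trans (pow_le_pow_right₀ hq1 (by omega))
  intro n
  induction n using Nat.strong_induction_on with
  | _ n ih =>
    intro hn
    rcases Nat.lt_or_ge n 2 with h2 | h2
    · have h1 : n = 1 := by
        have := hn.pos
        omega
      subst h1
      rw [BB_one P hPm hP]
      exact (hA 1).trans (pow_le_pow_right₀ hq1 (by omega))
    · obtain ⟨m, rfl⟩ : ∃ m, n = m + 2 := ⟨n - 2, by omega⟩
      have hrec := BB_rec P hPm hP m
      by_cases h3 : 2 * P.natDegree ≤ m + 2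
      · rw [if_pos h3] at hrec
        have hodd : Odd (m + 2 - 2 * P.natDegree) := by
          rw [Nat.odd_iff] at hn ⊢
          omega
        have hge : P.natDegree ≤ m := by
          rw [Nat.odd_iff] at hn
          omega
        rw [AA_zero hq P hPm hP m hge, AA_zero hq P hPm hP (m + 2) (by omega)] at hrec
        have h4 : BB (m + 2) P = BB (m + 2 - 2 * P.natDegree) P := by linarith
        rw [h4]
        exact ih _ (by omega) hodd
      · rw [if_neg h3] at hrec
        have h4 : BB (m + 2) P = AA (m + 2) P - (Fintype.card F : ℤ) * AA m P := by linarith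
        rw [h4]
        refine (abs_sub _ _).trans ?_
        rw [abs_mul, abs_of_nonneg (by linarith : (0 : ℤ) ≤ Fintype.card F)]
        have h5 := hA (m + 2)
        have h6 := hA m
        obtain ⟨k, hk⟩ : ∃ k, P.natDegree = k + 1 := ⟨P.natDegree - 1, by omega⟩
        rw [hk] at h5 h6 ⊢
        have h7 : (Fintype.card F : ℤ) ^ (k + 1 + 1) = Fintype.card F * (Fintype.card F *
            (Fintype.card F : ℤ) ^ k) := by ring
        rw [h7]
        simp only [Nat.add_sub_cancel] at h5 h6
        have hq2 : (2 : ℤ) ≤ Fintype.card F := one_lt_card_int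
        have hk0 : (0 : ℤ) < (Fintype.card F : ℤ) ^ k := by positivity
        nlinarith [mul_le_mul_of_nonneg_left h6 (by linarith : (0 : ℤ) ≤ Fintype.card F),
          mul_le_mul_of_nonneg_right hq2 (by positivity : (0 : ℤ) ≤ Fintype.card F *
            (Fintype.card F : ℤ) ^ k), mul_le_mul_of_nonneg_right hq2 hk0.le]

/-- `P` of even degree `m = 2h`: the sum over degree `m + 1` -/
lemma BB_top (hq : Odd (Fintype.card F)) (h : ℕ) (hh : 1 ≤ h) (P : F[X]) (hPm : P.Monic)
    (hP : Irreducible P) (hdeg : P.natDegree = 2 * h) :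
    BB (2 * h + 1) P = (Fintype.card F : ℤ) ^ h := by
  obtain ⟨m, hm⟩ : ∃ m, 2 * h + 1 = m + 2 := ⟨2 * h - 1, by omega⟩
  have hrec := BB_rec P hPm hP m
  rw [if_neg (by omega), AA_zero hq P hPm hP (m + 2) (by omega)] at hrec
  have htop := sum_top hq h hh P hPm hP hdeg
  have hm' : 2 * h - 1 = m := by omega
  rw [hm', ← AA, ] at htop
  rw [hm]
  linarith

lemma BB_top' (hq : Odd (Fintype.card F)) (h : ℕ) (hh : 2 ≤ h) (P : F[X]) (hPm : P.Monic)
    (hP : Irreducible P) (hdeg : P.natDegree = 2 * h) :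
    BB (2 * h + 3) P = 0 := by
  have hrec := BB_rec P hPm hP (2 * h + 1)
  rw [if_neg (by omega), AA_zero hq P hPm hP (2 * h + 1) (by omega),
    AA_zero hq P hPm hP (2 * h + 1 + 2) (by omega)] at hrec
  have : 2 * h + 3 = 2 * h + 1 + 2 := by ring
  rw [this]
  linarith

lemma sum_dvd_ensemble (P : F[X]) (hPm : P.Monic) (hP : Irreducible P) (n : ℕ) :
    ∑ D ∈ ensemble F n, (if P ∣ D then (1 : ℤ) else 0) =
      if P.natDegree ≤ n then CC (n - P.natDegree) P else 0 := by
  split_ifs with h
  · rw [CC]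
    have h1 : ∑ D ∈ ensemble F (n - P.natDegree), (if P ∣ D then (0 : ℤ) else 1) =
        ∑ D ∈ ensemble F (n - P.natDegree), if ¬ P ∣ D then (1 : ℤ) else 0 := by
      refine Finset.sum_congr rfl fun D _ => ?_
      by_cases hd : P ∣ D
      · rw [if_pos hd, if_neg (not_not.mpr hd)]
      · rw [if_neg hd, if_pos hd]
    rw [h1, ← Finset.sum_filter, ← Finset.sum_filter]
    symm
    refine Finset.sum_bij (fun E _ => P * E) ?_ ?_ ?_ ?_
    · intro E hE
      rw [Finset.mem_filter, mem_ens] at hE
      rw [Finset.mem_filter, mem_ens]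
      obtain ⟨⟨hm, hd, hs⟩, hnd⟩ := hE
      refine ⟨⟨hPm.mul hm, ?_, ?_⟩, dvd_mul_right _ _⟩
      · rw [hPm.natDegree_mul hm, hd]
        omega
      · rw [squarefree_mul_iff]
        exact ⟨((hP.coprime_iff_not_dvd).mpr hnd).isRelPrime, hP.squarefree, hs⟩
    · intro E _ E' _ he
      exact mul_left_cancel₀ hPm.ne_zero he
    · intro D hD
      rw [Finset.mem_filter, mem_ens] at hD
      obtain ⟨⟨hm, hd, hs⟩, E', rfl⟩ := hD
      have hm' : E'.Monic := hPm.of_mul_monic_left hm
      refine ⟨E', ?_, rfl⟩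
      rw [Finset.mem_filter, mem_ens]
      rw [squarefree_mul_iff] at hs
      refine ⟨⟨hm', ?_, hs.2.2⟩, ?_⟩
      · rw [hPm.natDegree_mul hm'] at hd
        omega
      · exact (hP.coprime_iff_not_dvd).mp hs.1.isCoprime
    · intro E _
      rfl
  · apply Finset.sum_eq_zero
    intro E hE
    rw [mem_ens] at hE
    rw [if_neg]
    intro hd
    have := natDegree_le_of_dvd hd hE.1.ne_zero
    omega

lemma CC_rec (P : F[X]) (hPm : P.Monic) (hP : Irreducible P) (n : ℕ) :
    CC n P + (if P.natDegree ≤ n then CC (n - P.natDegree) P else 0) =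
      ((ensemble F n).card : ℤ) := by
  rw [← sum_dvd_ensemble P hPm hP, CC, ← Finset.sum_add_distrib, Finset.card_eq_sum_ones]
  push_cast
  refine Finset.sum_congr rfl fun D _ => ?_
  split_ifs <;> norm_num

lemma card_ensemble_one : ((ensemble F 1).card : ℤ) = Fintype.card F := by
  have h := sum_decomp (F := F) 1 (fun _ => 1)
  rw [show (1 : ℕ) / 2 + 1 = 1 by norm_num, Finset.sum_range_one, monics_zero,
    Finset.sum_singleton] at h
  simp only [Finset.sum_const, nsmul_eq_mul, mul_one, card_monics, mul_zero, tsub_zero] at h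
  rw [← h]
  push_cast
  ring

lemma CC_bound (P : F[X]) (hPm : P.Monic) (hP : Irreducible P) (κ : ℝ)
    (hκ : κ = (Fintype.card F : ℝ) ^ P.natDegree / ((Fintype.card F : ℝ) ^ P.natDegree + 1)) :
    ∀ n, |(CC n P : ℝ) - κ * ((1 - 1 / (Fintype.card F : ℝ)) * (Fintype.card F : ℝ) ^ n)| ≤
      3 := by
  obtain ⟨q, hq⟩ : ∃ q, q = (Fintype.card F : ℝ) := ⟨_, rfl⟩
  obtain ⟨d, hd⟩ : ∃ d, d = P.natDegree := ⟨_, rfl⟩
  have hd0 : 0 < d := by rw [hd]; exact hP.natDegree_pos
  have hq1 : 1 < q := by rw [hq]; exact_mod_cast Fintype.one_lt_card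
  have hq0 : 0 < q := by linarith
  rw [← hq, ← hd] at hκ
  rw [← hq]
  have hqd : 0 < q ^ d := by positivity
  have hκ0 : 0 < κ := by rw [hκ]; positivity
  have hκ1 : κ ≤ 1 := by rw [hκ, div_le_one (by positivity)]; linarith
  have hκe : κ * (q ^ d + 1) = q ^ d := by
    rw [hκ]
    field_simp
  have hw0 : 0 ≤ 1 - 1 / q := by
    rw [sub_nonneg, div_le_one hq0]; exact hq1.le
  have hw1 : 1 - 1 / q ≤ 1 := by
    have : 0 ≤ 1 / q := by positivity
    linarith
  -- deviation of the count
  have hδ : ∀ n, ∃ δ : ℝ, (((ensemble F n).card : ℤ) : ℝ) = (1 - 1 / q) * q ^ n + δ ∧ 0 ≤ δ ∧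
      δ ≤ 1 ∧ (2 ≤ n → δ = 0) := by
    intro n
    rcases n with _ | _ | n
    · refine ⟨1 / q, ?_, by positivity, by rw [div_le_one hq0]; exact hq1.le, by omega⟩
      rw [ensemble_zero, Finset.card_singleton]
      push_cast
      ring
    · refine ⟨1, ?_, by norm_num, by norm_num, by omega⟩
      rw [zero_add, card_ensemble_one]
      push_cast
      rw [← hq]
      field_simp
      ring
    · refine ⟨0, ?_, by norm_num, by norm_num, fun _ => rfl⟩
      rw [card_ensemble]
      push_cast
      rw [← hq]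
      field_simp
      ring
  intro n
  induction n using Nat.strong_induction_on with
  | _ n ih =>
    have hrec := CC_rec P hPm hP n
    rw [← hd] at hrec
    obtain ⟨δ, h1, h2, h3, h4⟩ := hδ n
    by_cases h5 : d ≤ n
    · rw [if_pos h5] at hrec
      have hrec' : (CC n P : ℝ) + (CC (n - d) P : ℝ) = (1 - 1 / q) * q ^ n + δ := by
        rw [← h1, ← hrec]
        push_cast
        ring
      have hpow : q ^ n = q ^ d * q ^ (n - d) := by
        rw [← pow_add]
        congr 1
        omega
      have hkey : (CC n P : ℝ) - κ * ((1 - 1 / q) * q ^ n) =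
          δ - ((CC (n - d) P : ℝ) - κ * ((1 - 1 / q) * q ^ (n - d))) := by
        have h6 : κ * ((1 - 1 / q) * q ^ n) + κ * ((1 - 1 / q) * q ^ (n - d)) =
            (1 - 1 / q) * q ^ n := by
          rw [hpow]
          linear_combination (1 - 1 / q) * q ^ (n - d) * hκe
        linarith
      rw [hkey]
      by_cases h7 : 2 ≤ n
      · rw [h4 h7, zero_sub, abs_neg]
        exact ih (n - d) (by omega)
      · have hn : n = 1 := by omega
        have hd1 : d = 1 := by omega
        subst hn
        rw [hd1] at hκe hqd ⊢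
        rw [Nat.sub_self]
        have h8 : (CC 0 P : ℝ) = 1 := by
          have h9 := CC_rec P hPm hP 0
          rw [if_neg (by rw [← hd]; omega), ensemble_zero, Finset.card_singleton] at h9
          have h10 : CC 0 P = 1 := by simpa using h9
          rw [h10]
          norm_num
        rw [h8, pow_zero, mul_one, abs_le]
        have h11 : 0 ≤ κ * (1 - 1 / q) := by positivity
        have h12 : κ * (1 - 1 / q) ≤ 1 := mul_le_one₀ hκ1 hw0 hw1
        constructor <;> linarith
    · rw [if_neg h5, add_zero] at hrec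
      have hrec' : (CC n P : ℝ) = (1 - 1 / q) * q ^ n + δ := by
        rw [← h1, ← hrec]
      have h6 : (CC n P : ℝ) - κ * ((1 - 1 / q) * q ^ n) = δ + (1 - κ) * ((1 - 1 / q) * q ^ n) := by
        rw [hrec']
        ring
      rw [h6]
      have h7 : (1 - κ) * q ^ n ≤ 1 := by
        have h8 : (1 - κ) * (q ^ d + 1) = 1 := by linarith
        have h9 : q ^ n ≤ q ^ d := pow_le_pow_right₀ hq1.le (by omega)
        nlinarith
      have h10 : 0 ≤ (1 - κ) * q ^ n := mul_nonneg (by linarith) (by positivity)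
      have h11 : (1 - κ) * ((1 - 1 / q) * q ^ n) = (1 - 1 / q) * ((1 - κ) * q ^ n) := by ring
      have h12 : 0 ≤ (1 - 1 / q) * ((1 - κ) * q ^ n) := mul_nonneg hw0 h10
      have h13 : (1 - 1 / q) * ((1 - κ) * q ^ n) ≤ 1 := mul_le_one₀ hw1 h10 h7
      rw [h11, abs_of_nonneg (by linarith)]
      linarith

end Pool.Agent.H2.Ratios
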