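import Pool.Agent.H2.Ratios.Pairs

/-!
# The average of the top coefficient
-/

set_option autoImplicit false
set_option linter.unusedSectionVars false

open Polynomial UniqueFactorizationMonoid Finset
open scoped Classical

namespace Pool.Agent.H2.Ratios

open Pool.Agent.H69.Ratios

variable {F : Type} [Field F] [Fintype F]

lemma mem_ens {n : ℕ} {D : F[X]} :
    D ∈ ensemble F n ↔ D.Monic ∧ D.natDegree = n ∧ Squarefree D := by
  simp [ensemble, and_assoc]

lemma chi_const (hq : Odd (Fintype.card F)) (c : F) (f : F[X]) (hf : f.Monic) :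
    chi (C c) f = quadraticChar F c ^ f.natDegree := by
  rw [chi_resultant hq _ f hf, natDegree_C, resultant_zero_right_deg, coeff_C_zero, map_pow]

lemma monics_zero : monics F 0 = {1} := by
  ext f
  simp only [mem_monics, Finset.mem_singleton]
  constructor
  · rintro ⟨h1, h2⟩
    exact h1.natDegree_eq_zero.mp h2
  · rintro rfl
    simp [monic_one]

lemma ensemble_zero : ensemble F 0 = {1} := by
  rw [ensemble, monics_zero]
  ext f
  simp only [mem_filter, mem_singleton]
  constructor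
  · exact fun h => h.1
  · rintro rfl
    exact ⟨rfl, squarefree_one⟩

/-- the top coefficient vanishes for non-squarefree `D` -/
lemma coef_nonsquarefree (hq : Odd (Fintype.card F)) (g : ℕ) (D₀ E : F[X]) (h0 : D₀.Monic)
    (hE : E.Monic) (hdeg : D₀.natDegree + 2 * E.natDegree = 2 * g + 1) (he : 1 ≤ E.natDegree) :
    coef (D₀ * E ^ 2) (2 * g) = 0 := by
  obtain ⟨c, hc⟩ := quadraticChar_exists_neg_one (ringChar_ne_two_of_odd F hq)
  have hc0 : c ≠ 0 := by
    rintro rfl
    rw [quadraticChar_zero] at hc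
    norm_num at hc
  obtain ⟨Φ, hΦ⟩ : ∃ Φ : F[X] → ℤ, Φ = fun f => chi f D₀ * chi f E ^ 2 := ⟨_, rfl⟩
  have h1 : coef (D₀ * E ^ 2) (2 * g) = ∑ f ∈ monics F (2 * g), Φ f := by
    rw [coef, hΦ]
    refine Finset.sum_congr rfl fun f hf => ?_
    rw [mem_monics] at hf
    have ev : ∀ m : ℕ, Even (f.natDegree * m) := fun m => by
      rw [hf.2, mul_assoc]; exact even_two_mul _
    rw [chi_mul_left, pow_two E, chi_mul_left, chi_comm hq D₀ f h0 hf.1 (ev _),
      chi_comm hq E f hE hf.1 (ev _)]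
    ring
  have hM : (D₀ * E).Monic := h0.mul hE
  have hper : ∀ f f', D₀ * E ∣ f - f' → Φ f = Φ f' := by
    intro f f' h
    simp only [hΦ]
    rw [chi_congr f f' D₀ ((dvd_mul_right _ _).trans h), chi_congr f f' E
      ((dvd_mul_left _ _).trans h)]
  have hco : IsCoprime (C c) (D₀ * E) :=
    ⟨C c⁻¹, 0, by rw [← C_mul, inv_mul_cancel₀ hc0]; simp⟩
  have h2 := twist_sum (D₀ * E) hM (C c) hco (2 * g) (by rw [h0.natDegree_mul hE]; omega) Φ hper
  have h3 : ∀ f, Φ (C c * f) = -Φ f := by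
    intro f
    simp only [hΦ]
    have hodd : Odd D₀.natDegree := by
      rw [Nat.odd_iff]; omega
    rw [chi_mul_left, chi_mul_left, chi_const hq c D₀ h0, chi_const hq c E hE, hc,
      hodd.neg_one_pow]
    have h4 : ((-1 : ℤ) ^ E.natDegree) ^ 2 = 1 := by
      rw [← pow_mul, mul_comm, pow_mul]; norm_num
    linear_combination (-(chi f D₀ * chi f E ^ 2)) * h4
  simp only [h3, Finset.sum_neg_distrib] at h2
  rw [h1]
  linarith

/-- the sum of the top coefficients over all monic `D` of degree `2g+1` -/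
lemma sum_coef_all (hq : Odd (Fintype.card F)) (g : ℕ) :
    ∑ D ∈ monics F (2 * g + 1), coef D (2 * g) = cop F (2 * g + 1) g := by
  have h1 : ∑ D ∈ monics F (2 * g + 1), coef D (2 * g) =
      ∑ f ∈ monics F (2 * g), ∑ D ∈ monics F (2 * g + 1), chi D f := by
    unfold coef
    rw [Finset.sum_comm]
  rw [h1, sum_decomp (2 * g) (fun f => ∑ D ∈ monics F (2 * g + 1), chi D f)]
  have e1 : 2 * g / 2 + 1 = g + 1 := by omega
  rw [e1, Finset.sum_range_succ]
  have h2 : ∑ e ∈ range g, ∑ E ∈ monics F e, ∑ D₀ ∈ ensemble F (2 * g - 2 * e),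
      ∑ D ∈ monics F (2 * g + 1), chi D (D₀ * E ^ 2) = 0 := by
    refine Finset.sum_eq_zero fun e he => Finset.sum_eq_zero fun E hE =>
      Finset.sum_eq_zero fun D₀ hD₀ => ?_
    rw [mem_range] at he
    rw [mem_monics] at hE
    rw [mem_ens] at hD₀
    apply sum_chi_eq_zero hq D₀ E hD₀.1 hE.1 hD₀.2.2
    · rintro rfl
      have := hD₀.2.1
      rw [natDegree_one] at this
      omega
    · rw [hD₀.1.natDegree_mul (hE.1.pow 2), natDegree_pow, hD₀.2.1, hE.2]
      omega
  rw [h2, zero_add, Nat.sub_self, cop]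
  conv_rhs => rw [Finset.sum_comm]
  refine Finset.sum_congr rfl fun E hE => ?_
  rw [mem_monics] at hE
  rw [ensemble_zero, Finset.sum_singleton]
  refine Finset.sum_congr rfl fun D _ => ?_
  rw [one_mul, chi_pow D E hE.1.ne_zero, chi_sq D E hE.1.ne_zero]

/-- the sum of the top coefficients over the ensemble -/
lemma sum_coef_ensemble (hq : Odd (Fintype.card F)) (g : ℕ) (hg : 1 ≤ g) :
    ∑ D ∈ ensemble F (2 * g + 1), coef D (2 * g) =
      ∑ _D ∈ ensemble F (2 * g + 1), (Fintype.card F : ℤ) ^ g := by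
  have h1 := sum_coef_all hq g
  rw [sum_decomp (2 * g + 1) (fun D => coef D (2 * g))] at h1
  have e1 : (2 * g + 1) / 2 + 1 = g + 1 := by omega
  rw [e1, Finset.sum_range_succ'] at h1
  have h2 : ∑ e ∈ range g, ∑ E ∈ monics F (e + 1),
      ∑ D₀ ∈ ensemble F (2 * g + 1 - 2 * (e + 1)), coef (D₀ * E ^ 2) (2 * g) = 0 := by
    refine Finset.sum_eq_zero fun e he => Finset.sum_eq_zero fun E hE =>
      Finset.sum_eq_zero fun D₀ hD₀ => ?_
    rw [mem_range] at he
    rw [mem_monics] at hE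
    rw [mem_ens] at hD₀
    exact coef_nonsquarefree hq g D₀ E hD₀.1 hE.1 (by omega) (by omega)
  rw [h2, zero_add, monics_zero, Finset.sum_singleton, mul_zero, Nat.sub_zero] at h1
  simp only [one_pow, mul_one] at h1
  rw [h1, Finset.sum_const, nsmul_eq_mul]
  obtain ⟨k, rfl⟩ : ∃ k, g = k + 1 := ⟨g - 1, by omega⟩
  have h3 := card_ensemble (F := F) (2 * k + 1)
  have h4 := cop_succ (F := F) (2 * (k + 1)) k
  have e2 : 2 * k + 1 + 2 = 2 * (k + 1) + 1 := by ring
  rw [e2] at h3
  rw [h3, h4]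
  ring

end Pool.Agent.H2.Ratios
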